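import Pool.Agent.Helper19.REC.LNM

/-! # LARK: characters with values in `(ℤ / l ^ k)ˣ`, in terms of embeddings -/

set_option autoImplicit false

open scoped Classical
open NumberField

namespace REC

open Pool.Agent.Helper13.ZL (Pl q HasMean)
open MU (Gal Zb Over CongPow cyc)

theorem exists_sep {F : Type} [Field F] [NumberField F] (Bl : Finset (Pl F)) (N : ℕ) (x : 𝓞 F) :
    ∃ y : Pl F → 𝓞 F, IsSep Bl N x y := by
  have h : ∀ v : Pl F, ∃ z : 𝓞 F, ∀ v' (_ : v' ∈ Bl),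
      z - (if v' = v then x else 1) ∈ v'.asIdeal ^ N := by
    intro v
    obtain ⟨z, hz⟩ := IsDedekindDomain.exists_forall_sub_mem_ideal (s := Bl)
      (fun v : Pl F => v.asIdeal) (fun _ => N) (fun v _ => v.prime)
      (fun v _ v' _ hne h => hne (IsDedekindDomain.HeightOneSpectrum.ext h))
      (fun v' => if (v' : Pl F) = v then x else 1)
    exact ⟨z, fun v' hv' => hz v' hv'⟩
  choose y hy using h
  refine ⟨y, fun v hv => ⟨?_, fun v' hv' hne => ?_⟩⟩
  · have := hy v v hv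
    rwa [if_pos rfl] at this
  · have := hy v v' hv'
    rwa [if_neg hne] at this

open LNMaux in
theorem st_LARK (hLAR0 : ST_LAR0) : ST_LARK := by
  intro F L _ _ _ _ _ hne l hlp k hk ε e Bl φ hcy 𝔩 hp hl pl hpl x hx0 hxp hxl t ht
  obtain ⟨N, hN0, hN⟩ := hLAR0 F l k _ ε (MonoidHom.id _) (fun v => (e v : ℤ)) Bl φ hcy
  obtain ⟨y, hy⟩ := exists_sep Bl (max N k) x
  have hmono : ∀ M, M ≤ max N k → IsSep Bl M x y := by
    intro M hM v hv
    exact ⟨Ideal.pow_le_pow_right hM (hy v hv).1,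
      fun v' hv' hne => Ideal.pow_le_pow_right hM ((hy v hv).2 v' hv' hne)⟩
  have hmem : ∀ τ : F →+* L, pl τ ∈ Bl := by
    intro τ
    rw [hcy.pl, hpl, map_natCast]
    exact hl
  have hnd : ∀ v ∈ Bl, ¬ ((l : ℤ) ∣ Algebra.norm ℤ (y v)) := by
    intro v hv hd
    have h1 : ((Algebra.norm ℤ (y v) : ℤ) : 𝓞 L) ∈ 𝔩 := by
      obtain ⟨c, hc⟩ := hd
      rw [hc, Int.cast_mul, Int.cast_natCast]
      exact Ideal.mul_mem_right _ _ hl
    rw [norm_eq] at h1
    obtain ⟨τ, _, hτ⟩ := (Ideal.IsPrime.prod_mem_iff).1 h1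
    have h2 : y v ∈ (pl τ).asIdeal := (hpl τ _).2 hτ
    have h3 := hmono 1 (by omega)
    by_cases hv' : pl τ = v
    · have h4 := (h3 v hv).1
      rw [pow_one] at h4
      apply hxl v hv
      rw [hv'] at h2
      have := v.asIdeal.sub_mem h2 h4
      rwa [sub_sub_cancel] at this
    · have h4 := (h3 v hv).2 (pl τ) (hmem τ) hv'
      rw [pow_one] at h4
      have h5 := (pl τ).asIdeal.sub_mem h2 h4
      rw [sub_sub_cancel] at h5
      exact (pl τ).isPrime.ne_top ((Ideal.eq_top_iff_one _).2 h5)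
  have hunit : ∀ v ∈ Bl, IsUnit ((Algebra.norm ℤ (y v) : ℤ) : ZMod (l ^ k)) := by
    intro v hv
    rw [ZMod.coe_int_isUnit_iff_isCoprime]
    push_cast
    apply IsCoprime.pow_left
    exact ((Nat.prime_iff_prime_int.1 hlp.out).irreducible.coprime_iff_not_dvd).2 (hnd v hv)
  let u : Pl F → (ZMod (l ^ k))ˣ := fun v =>
    if h : IsUnit ((Algebra.norm ℤ (y v) : ℤ) : ZMod (l ^ k)) then h.unit else 1
  have hu : ∀ v ∈ Bl, ((u v : (ZMod (l ^ k))ˣ) : ZMod (l ^ k)) = (Algebra.norm ℤ (y v) : ℤ) := by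
    intro v hv
    simp only [u]
    rw [dif_pos (hunit v hv)]
    rfl
  have h1 := hN x y hx0 hxp hxl (hmono N (le_max_left _ _)) u hu
  have h2 : ((t * ∏ v ∈ Bl, (Algebra.norm ℤ (y v)) ^ e v - 1 : ℤ) : ZMod (l ^ k)) = 0 := by
    have h3 := congrArg (fun z : (ZMod (l ^ k))ˣ => (z : ZMod (l ^ k))) h1
    simp only [MonoidHom.id_apply, zpow_natCast, Units.val_mul, Units.val_one, Units.coe_prod,
      Units.val_pow_eq_pow_val] at h3
    rw [Finset.prod_congr rfl fun v hv => by rw [hu v hv]] at h3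
    rw [← ht] at h3
    push_cast
    rw [h3, sub_self]
  obtain ⟨c, hc⟩ := (ZMod.intCast_zmod_eq_zero_iff_dvd _ (l ^ k)).1 h2
  have h4 := st_LNM F L l Bl hcy.pl 𝔩 hp hl pl hpl k hk e x y (hmono k (le_max_right _ _))
  have h5 : ((t * ∏ v ∈ Bl, (Algebra.norm ℤ (y v)) ^ e v - 1 : ℤ) : 𝓞 L) ∈ 𝔩 ^ k := by
    rw [hc]
    push_cast
    exact Ideal.mul_mem_right _ _ (Ideal.pow_mem_pow hl k)
  have h6 := (𝔩 ^ k).sub_mem h5 ((𝔩 ^ k).mul_mem_left (t : 𝓞 L) h4)
  convert h6 using 1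
  push_cast
  ring

end REC
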