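import Pool.Agent.Helper85.REC.Stmts7

/-! # LART: tame reciprocity in terms of embeddings -/

set_option autoImplicit false

open scoped Classical
open NumberField

namespace REC

open Pool.Agent.Helper13.ZL (Pl q)
open MU (Gal Zb Over CongPow)

namespace LARTaux

variable {F L : Type} [Field F] [NumberField F] [Field L] [NumberField L] {k : Type} [Field k]

/-- the reduction at the place of an embedding -/
noncomputable def fl (ι : 𝓞 L →+* k) (τ : F →+* L) (v : Pl F)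
    (h : RingHom.ker (ι.comp (RingOfIntegers.mapRingHom τ)) = v.asIdeal) :
    (𝓞 F ⧸ v.asIdeal) →+* k :=
  Ideal.Quotient.lift v.asIdeal (ι.comp (RingOfIntegers.mapRingHom τ)) (fun a ha => by
    rw [← h] at ha
    exact ha)

theorem fl_mk (ι : 𝓞 L →+* k) (τ : F →+* L) (v : Pl F)
    (h : RingHom.ker (ι.comp (RingOfIntegers.mapRingHom τ)) = v.asIdeal) (u : 𝓞 F) :
    fl ι τ v h (Ideal.Quotient.mk v.asIdeal u) = ι (RingOfIntegers.mapRingHom τ u) := rfl

/-- the local character -/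
noncomputable def fc (ι : 𝓞 L →+* k) (e : (F →+* L) → ℕ) (v : Pl F) :
    (𝓞 F ⧸ v.asIdeal)ˣ →* kˣ :=
  ∏ τ : F →+* L,
    if h : RingHom.ker (ι.comp (RingOfIntegers.mapRingHom τ)) = v.asIdeal then
      (Units.map (fl ι τ v h : (𝓞 F ⧸ v.asIdeal) →* k)) ^ e τ else 1

theorem fc_apply (ι : 𝓞 L →+* k) (e : (F →+* L) → ℕ) (v : Pl F) (u : 𝓞 F)
    (U : (𝓞 F ⧸ v.asIdeal)ˣ) (hU : (U : 𝓞 F ⧸ v.asIdeal) = Ideal.Quotient.mk v.asIdeal u) :
    ((fc ι e v U : kˣ) : k) = ∏ τ : F →+* L,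
      (if RingHom.ker (ι.comp (RingOfIntegers.mapRingHom τ)) = v.asIdeal then
        ι (RingOfIntegers.mapRingHom τ u) ^ e τ else 1) := by
  unfold fc
  rw [MonoidHom.finset_prod_apply, Units.coe_prod]
  refine Finset.prod_congr rfl fun τ _ => ?_
  by_cases h : RingHom.ker (ι.comp (RingOfIntegers.mapRingHom τ)) = v.asIdeal
  · rw [dif_pos h, if_pos h, MonoidHom.pow_apply, Units.val_pow_eq_pow_val, Units.coe_map, hU]
    rfl
  · rw [dif_neg h, if_neg h]
    rfl

end LARTaux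

open LARTaux in
theorem st_LART (hTAL : ST_TAL) : ST_LART := by
  intro F L _ _ _ _ _ _ l hlp k _ ι hl ε Bl φ π e hBl hop hphi htame x hx0 hxp hxl
  have hunit : ∀ v : Pl F, v ∈ Bl → IsUnit (Ideal.Quotient.mk v.asIdeal x) := by
    intro v hv
    haveI := v.isPrime.isMaximal v.ne_bot
    letI := Ideal.Quotient.field v.asIdeal
    rw [isUnit_iff_ne_zero]
    intro h0
    exact hxl v hv (Ideal.Quotient.eq_zero_iff_mem.1 h0)
  let X : ∀ v : Pl F, (𝓞 F ⧸ v.asIdeal)ˣ := fun v =>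
    if h : IsUnit (Ideal.Quotient.mk v.asIdeal x) then h.unit else 1
  have hX : ∀ v ∈ Bl, ((X v : (𝓞 F ⧸ v.asIdeal)ˣ) : 𝓞 F ⧸ v.asIdeal) =
      Ideal.Quotient.mk v.asIdeal x := by
    intro v hv
    simp only [X]
    rw [dif_pos (hunit v hv)]
    rfl
  have h1 := hTAL F kˣ ε Bl φ π (fc ι e) hop hphi (fun v hv => ⟨(htame v hv).1, by
    intro 𝔓 h𝔓 σ hσ u U hU hTm
    have hu : u ∉ v.asIdeal := by
      intro hu
      have h0 : Ideal.Quotient.mk v.asIdeal u = 0 := Ideal.Quotient.eq_zero_iff_mem.2 hu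
      haveI := v.isPrime.isMaximal v.ne_bot
      have hne : ((U : (𝓞 F ⧸ v.asIdeal)ˣ) : 𝓞 F ⧸ v.asIdeal) ≠ 0 := U.ne_zero
      exact hne (hU.trans h0)
    have h2 := (htame v hv).2 𝔓 h𝔓 σ hσ u hu hTm
    apply Units.ext
    rw [Units.val_mul, fc_apply ι e v u U hU, Units.val_one]
    exact h2⟩) x hx0 hxp X hX
  have h2 := congrArg (fun z : kˣ => (z : k)) h1
  simp only [Units.val_mul, Units.val_one, Units.coe_prod] at h2
  rw [Finset.prod_congr rfl fun v hv => fc_apply ι e v x (X v) (hX v hv), Finset.prod_comm] at h2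
  rw [← h2]
  congr 1
  refine Finset.prod_congr rfl fun τ _ => ?_
  -- the place of `τ`
  have hlk : (l : 𝓞 F) ∈ RingHom.ker (ι.comp (RingOfIntegers.mapRingHom τ)) := by
    rw [RingHom.mem_ker, RingHom.comp_apply, map_natCast]
    exact hl
  have hne : RingHom.ker (ι.comp (RingOfIntegers.mapRingHom τ)) ≠ ⊥ := by
    intro h0
    rw [h0, Ideal.mem_bot] at hlk
    exact hlp.out.ne_zero (by exact_mod_cast hlk)
  let vt : Pl F := ⟨RingHom.ker (ι.comp (RingOfIntegers.mapRingHom τ)), RingHom.ker_isPrime _, hne⟩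
  have hvt : vt ∈ Bl := (hBl vt).2 hlk
  rw [Finset.prod_eq_single vt]
  · rw [if_pos rfl]
  · intro v _ hv
    rw [if_neg]
    intro h
    exact hv (IsDedekindDomain.HeightOneSpectrum.ext h.symm)
  · intro h
    exact absurd hvt h

end REC
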