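import Pool.Agent.Helper57.REC.Stmts5

/-! # LNM: local norms and embeddings -/

set_option autoImplicit false

open scoped Classical
open NumberField

namespace REC

open Pool.Agent.Helper13.ZL (Pl q HasMean)
open MU (Gal Zb Over CongPow cyc)

namespace LNMaux

variable {F L : Type} [Field F] [NumberField F] [Field L] [NumberField L]

/-- embeddings in the algebraic closure -/
noncomputable def up (τ : F →+* L) : F →ₐ[ℚ] AlgebraicClosure L :=
  ((algebraMap L (AlgebraicClosure L)).comp τ).toRatAlgHom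

theorem up_apply (τ : F →+* L) (x : F) : up τ x = algebraMap L (AlgebraicClosure L) (τ x) := rfl

theorem up_bij [IsGalois ℚ L] [hne : Nonempty (F →+* L)] :
    Function.Bijective (up : (F →+* L) → (F →ₐ[ℚ] AlgebraicClosure L)) := by
  constructor
  · intro τ τ' h
    ext x
    apply (algebraMap L (AlgebraicClosure L)).injective
    rw [← up_apply, ← up_apply, h]
  · intro σ
    obtain ⟨τ0⟩ := hne
    letI : Algebra F L := τ0.toAlgebra
    letI : Algebra F (AlgebraicClosure L) := (σ : F →+* AlgebraicClosure L).toAlgebra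
    haveI : Algebra.IsAlgebraic F L := by
      haveI : IsScalarTower ℚ F L := IsScalarTower.of_algebraMap_eq fun x => by
        exact (map_ratCast τ0 x).symm
      exact Algebra.IsAlgebraic.tower_top (K := ℚ) F
    let s : L →ₐ[F] AlgebraicClosure L := IsAlgClosed.lift
    let s' : L →ₐ[ℚ] AlgebraicClosure L := (s : L →+* AlgebraicClosure L).toRatAlgHom
    have hs : ∀ x : L, algebraMap L (AlgebraicClosure L) (s'.restrictNormal L x) = s x := by
      intro x
      have := AlgHom.restrictNormal_commutes s' L x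
      exact this
    refine ⟨(s'.restrictNormal L : L →+* L).comp τ0, ?_⟩
    ext x
    rw [up_apply]
    show algebraMap L (AlgebraicClosure L) (s'.restrictNormal L (τ0 x)) = σ x
    rw [hs]
    have := s.commutes x
    exact this

theorem norm_eq [IsGalois ℚ L] [Nonempty (F →+* L)] (y : 𝓞 F) :
    ((Algebra.norm ℤ y : ℤ) : 𝓞 L) = ∏ τ : F →+* L, RingOfIntegers.mapRingHom τ y := by
  apply RingOfIntegers.coe_injective
  apply (algebraMap L (AlgebraicClosure L)).injective
  have h2 : algebraMap ℚ (AlgebraicClosure L) (Algebra.norm ℚ (y : F)) =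
      ∏ σ : F →ₐ[ℚ] AlgebraicClosure L, σ (y : F) := Algebra.norm_eq_prod_embeddings ℚ _ _
  rw [← Function.Bijective.prod_comp (up_bij (F := F) (L := L))
    (fun σ : F →ₐ[ℚ] AlgebraicClosure L => σ (y : F))] at h2
  rw [map_intCast, map_intCast, map_prod, map_prod]
  rw [← Algebra.coe_norm_int] at h2
  rw [map_intCast] at h2
  exact h2

theorem map_pow_mem {𝔩 : Ideal (𝓞 L)} {pl : (F →+* L) → Pl F} (hpl : IsPlOf 𝔩 pl) (k : ℕ)
    (τ : F →+* L) (z : 𝓞 F) (hz : z ∈ (pl τ).asIdeal ^ k) :
    RingOfIntegers.mapRingHom τ z ∈ 𝔩 ^ k := by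
  have h1 : (pl τ).asIdeal.map (RingOfIntegers.mapRingHom τ) ≤ 𝔩 := by
    rw [Ideal.map_le_iff_le_comap]
    intro w hw
    exact (hpl τ w).1 hw
  have h2 : ((pl τ).asIdeal ^ k).map (RingOfIntegers.mapRingHom τ) ≤ 𝔩 ^ k := by
    rw [Ideal.map_pow]
    exact Ideal.pow_right_mono h1 k
  exact h2 (Ideal.mem_map_of_mem _ hz)

end LNMaux

open LNMaux in
theorem st_LNM : ST_LNM := by
  intro F L _ _ _ _ _ hne l _ Bl hBl 𝔩 hp hl pl hpl k hk e x y hsep
  rw [← Ideal.Quotient.eq]
  have hmem : ∀ τ : F →+* L, pl τ ∈ Bl := by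
    intro τ
    rw [hBl, hpl, map_natCast]
    exact hl
  have hval : ∀ v ∈ Bl, ∀ τ : F →+* L,
      Ideal.Quotient.mk (𝔩 ^ k) (RingOfIntegers.mapRingHom τ (y v)) =
        if pl τ = v then Ideal.Quotient.mk (𝔩 ^ k) (RingOfIntegers.mapRingHom τ x) else 1 := by
    intro v hv τ
    split_ifs with h
    · rw [Ideal.Quotient.eq, ← map_sub]
      apply map_pow_mem hpl
      rw [h]
      exact (hsep v hv).1
    · rw [← map_one (Ideal.Quotient.mk (𝔩 ^ k)), Ideal.Quotient.eq,
        ← map_one (RingOfIntegers.mapRingHom τ), ← map_sub]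
      apply map_pow_mem hpl
      exact (hsep v hv).2 (pl τ) (hmem τ) h
  rw [Int.cast_prod, map_prod, map_prod]
  have h1 : ∀ v ∈ Bl, Ideal.Quotient.mk (𝔩 ^ k) (((Algebra.norm ℤ (y v)) ^ e v : ℤ) : 𝓞 L) =
      ∏ τ : F →+* L, (if pl τ = v then
        Ideal.Quotient.mk (𝔩 ^ k) (RingOfIntegers.mapRingHom τ x) ^ e v else 1) := by
    intro v hv
    rw [Int.cast_pow, norm_eq, map_pow, map_prod, ← Finset.prod_pow]
    refine Finset.prod_congr rfl fun τ _ => ?_
    rw [hval v hv]
    split_ifs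
    · rfl
    · exact one_pow _
  rw [Finset.prod_congr rfl h1, Finset.prod_comm]
  refine Finset.prod_congr rfl fun τ _ => ?_
  rw [Finset.prod_ite_eq, if_pos (hmem τ), map_pow]

end REC
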