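import Pool.Agent.Helper57.REC.Stmts3

/-! # POV: places in Galois extensions -/

set_option autoImplicit false

open scoped Classical
open scoped Pointwise
open NumberField

namespace REC

open Pool.Agent.Helper13.ZL (Pl q HasMean)
open MU (Gal Zb Over CongPow)

namespace POVaux

section general

variable {F L : Type} [Field F] [NumberField F] [Field L] [NumberField L] [Algebra F L]

theorem ovL_iff (v : Pl F) (P : Pl L) : OvL v P ↔ v.asIdeal = P.asIdeal.under (𝓞 F) := by
  constructor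
  · intro h
    ext x
    exact (h x).symm
  · intro h x
    rw [h]
    rfl

theorem ovL_lies {v : Pl F} {P : Pl L} (h : OvL v P) : P.asIdeal.LiesOver v.asIdeal :=
  ⟨(ovL_iff v P).1 h⟩

theorem existsUnique_down (P : Pl L) : ∃! v : Pl F, OvL v P := by
  refine ⟨IsDedekindDomain.HeightOneSpectrum.under (𝓞 F) P, (ovL_iff _ _).2 rfl, ?_⟩
  intro v hv
  exact IsDedekindDomain.HeightOneSpectrum.ext ((ovL_iff v P).1 hv)

/-- places over `v` and prime ideals over `v` -/
noncomputable def equivOver (v : Pl F) :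
    {P : Pl L // OvL v P} ≃ (v.asIdeal.primesOver (𝓞 L)) where
  toFun P := ⟨P.1.asIdeal, P.1.isPrime, ovL_lies P.2⟩
  invFun Q := ⟨⟨Q.1, Q.2.1, Ideal.ne_bot_of_mem_primesOver v.ne_bot Q.2⟩,
    (ovL_iff _ _).2 Q.2.2.over⟩
  left_inv P := by
    apply Subtype.ext
    rfl
  right_inv Q := rfl

theorem finite_over (v : Pl F) : Finite {P : Pl L // OvL v P} := by
  haveI := v.isPrime.isMaximal v.ne_bot
  have hf := IsDedekindDomain.primesOver_finite v.asIdeal (𝓞 L)
  haveI : Finite (v.asIdeal.primesOver (𝓞 L)) := hf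
  exact Finite.of_equiv _ (equivOver (L := L) v).symm

theorem nonempty_over (v : Pl F) : Nonempty {P : Pl L // OvL v P} := by
  haveI := v.isPrime
  haveI : Nonempty (v.asIdeal.primesOver (𝓞 L)) := inferInstance
  exact (equivOver (L := L) v).nonempty_congr.2 inferInstance

theorem val_eq_aux {a b : WithZero (Multiplicative ℤ)} (ha : a ≤ 1) (hb : b ≤ 1)
    (h : ∀ n : ℕ, a ≤ WithZero.exp (-(n : ℤ)) ↔ b ≤ WithZero.exp (-(n : ℤ))) : a = b := by
  have key : ∀ {a b : WithZero (Multiplicative ℤ)}, b ≤ 1 →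
      (∀ n : ℕ, a ≤ WithZero.exp (-(n : ℤ)) → b ≤ WithZero.exp (-(n : ℤ))) → b ≤ a := by
    intro a b hb h
    by_contra hlt
    rw [not_le] at hlt
    have hb0 : b ≠ 0 := (lt_of_le_of_lt zero_le hlt).ne'
    obtain ⟨m, hm⟩ : ∃ m : ℤ, b = WithZero.exp m := ⟨WithZero.log b, (WithZero.exp_log hb0).symm⟩
    have hm0 : m ≤ 0 := by
      rw [hm, ← WithZero.exp_zero, WithZero.exp_le_exp] at hb
      exact hb
    obtain ⟨n, hn⟩ : ∃ n : ℕ, m = -(n : ℤ) := ⟨m.natAbs, by omega⟩
    have h1 : a ≤ WithZero.exp (-((n + 1 : ℕ) : ℤ)) := by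
      by_cases ha0 : a = 0
      · rw [ha0]; exact zero_le
      · obtain ⟨k, hk⟩ : ∃ k : ℤ, a = WithZero.exp k :=
          ⟨WithZero.log a, (WithZero.exp_log ha0).symm⟩
        rw [hk, hm, WithZero.exp_lt_exp] at hlt
        rw [hk, WithZero.exp_le_exp]
        push_cast
        omega
    have h2 := h (n + 1) h1
    rw [hm, WithZero.exp_le_exp] at h2
    push_cast at h2
    omega
  exact le_antisymm (key ha fun n hn => (h n).2 hn) (key hb fun n hn => (h n).1 hn)

end general

section galois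

variable {F L : Type} [Field F] [NumberField F] [Field L] [NumberField L] [Algebra F L]

/-- the action of the Galois group on the places -/
noncomputable def act (τ : L ≃ₐ[F] L) (P : Pl L) : Pl L where
  asIdeal := τ • P.asIdeal
  isPrime := by
    haveI := P.isPrime
    infer_instance
  ne_bot := by
    intro h
    apply P.ne_bot
    have h2 : τ⁻¹ • (τ • P.asIdeal) = ⊥ := by rw [h, Ideal.smul_bot]
    rwa [inv_smul_smul] at h2

theorem int_act (τ : L ≃ₐ[F] L) (P : Pl L) (x : 𝓞 L) :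
    (act τ P).intValuation (τ • x) = P.intValuation x := by
  apply val_eq_aux
  · exact (act τ P).intValuation_le_one _
  · exact P.intValuation_le_one _
  · intro n
    rw [IsDedekindDomain.HeightOneSpectrum.intValuation_le_pow_iff_mem,
      IsDedekindDomain.HeightOneSpectrum.intValuation_le_pow_iff_mem]
    show τ • x ∈ (τ • P.asIdeal) ^ n ↔ x ∈ P.asIdeal ^ n
    rw [← smul_pow', Ideal.smul_mem_pointwise_smul_iff]

theorem val_act (τ : L ≃ₐ[F] L) (P : Pl L) (x : L) :
    (act τ P).valuation L (τ x) = P.valuation L x := by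
  obtain ⟨a, b, hb, rfl⟩ := IsFractionRing.div_surjective (A := 𝓞 L) x
  have h : ∀ a : 𝓞 L, (act τ P).valuation L (τ (algebraMap (𝓞 L) L a)) =
      P.valuation L (algebraMap (𝓞 L) L a) := by
    intro a
    have h1 : τ (algebraMap (𝓞 L) L a) = algebraMap (𝓞 L) L (τ • a) := rfl
    rw [h1, IsDedekindDomain.HeightOneSpectrum.valuation_of_algebraMap,
      IsDedekindDomain.HeightOneSpectrum.valuation_of_algebraMap, int_act]
  rw [map_div₀, map_div₀, map_div₀, h, h]

theorem pl_ext {P P' : Pl L} (h : ∀ x : L, P.valuation L x = P'.valuation L x) : P = P' := by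
  apply IsDedekindDomain.HeightOneSpectrum.ext
  ext x
  rw [← IsDedekindDomain.HeightOneSpectrum.valuation_lt_one_iff_mem (K := L),
    ← IsDedekindDomain.HeightOneSpectrum.valuation_lt_one_iff_mem (K := L), h]

theorem eq_act {τ : L ≃ₐ[F] L} {P P' : Pl L}
    (h : ∀ x : L, P'.valuation L (τ x) = P.valuation L x) : P' = act τ P := by
  apply pl_ext
  intro x
  have h1 := h (τ.symm x)
  have h2 := val_act τ P (τ.symm x)
  rw [AlgEquiv.apply_symm_apply] at h1 h2
  rw [h1, h2]

theorem ovL_act (τ : L ≃ₐ[F] L) {v : Pl F} {P : Pl L} (h : OvL v P) : OvL v (act τ P) := by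
  intro x
  have h1 : (act τ P).valuation L (algebraMap (𝓞 L) L (algebraMap (𝓞 F) (𝓞 L) x)) =
      P.valuation L (algebraMap (𝓞 L) L (algebraMap (𝓞 F) (𝓞 L) x)) := by
    rw [← val_act τ P]
    congr 1
    have : algebraMap (𝓞 L) L (algebraMap (𝓞 F) (𝓞 L) x) = algebraMap F L (x : F) := rfl
    rw [this, AlgEquiv.commutes]
  rw [← IsDedekindDomain.HeightOneSpectrum.valuation_lt_one_iff_mem (K := L), h1,
    IsDedekindDomain.HeightOneSpectrum.valuation_lt_one_iff_mem]
  exact h x

theorem trans_act [IsGalois F L] {v : Pl F} {P P' : Pl L} (h : OvL v P) (h' : OvL v P') :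
    ∃ τ : L ≃ₐ[F] L, P' = act τ P := by
  haveI := P.isPrime
  haveI := P'.isPrime
  haveI := ovL_lies h
  haveI := ovL_lies h'
  obtain ⟨τ, hτ⟩ := Ideal.exists_smul_eq_of_isGaloisGroup v.asIdeal P.asIdeal P'.asIdeal
    (L ≃ₐ[F] L)
  exact ⟨τ, IsDedekindDomain.HeightOneSpectrum.ext hτ.symm⟩

theorem ram_pos {v : Pl F} {P : Pl L} (h : OvL v P) :
    0 < v.asIdeal.ramificationIdx' P.asIdeal := by
  haveI := ovL_lies h
  haveI := P.isPrime
  exact Nat.pos_of_ne_zero
    (Ideal.IsDedekindDomain.ramificationIdx'_ne_zero_of_liesOver P.asIdeal v.ne_bot)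

theorem val_down {v : Pl F} {P : Pl L} (h : OvL v P) (x : F) :
    P.valuation L (algebraMap F L x) =
      v.valuation F x ^ v.asIdeal.ramificationIdx' P.asIdeal := by
  haveI := ovL_lies h
  exact (IsDedekindDomain.HeightOneSpectrum.valuation_liesOver L v P x).symm

theorem card_over [IsGalois F L] (v : Pl F) {P : Pl L} (h : OvL v P) :
    Nat.card {P : Pl L // OvL v P} *
      (v.asIdeal.ramificationIdx' P.asIdeal * v.asIdeal.inertiaDeg' P.asIdeal) =
      Module.finrank F L := by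
  haveI := v.isPrime
  haveI := v.isPrime.isMaximal v.ne_bot
  haveI := P.isPrime
  haveI := P.isPrime.isMaximal P.ne_bot
  haveI := ovL_lies h
  have h1 := Ideal.ncard_primesOver_mul_ramificationIdxIn_mul_inertiaDegIn v.asIdeal (𝓞 L)
    (L ≃ₐ[F] L)
  rw [Ideal.ramificationIdxIn_eq_ramificationIdx v.asIdeal P.asIdeal (L ≃ₐ[F] L),
    Ideal.inertiaDegIn_eq_inertiaDeg v.asIdeal P.asIdeal (L ≃ₐ[F] L),
    ← Ideal.ramificationIdx'_eq_ramificationIdx v.asIdeal P.asIdeal v.ne_bot,
    ← Ideal.inertiaDeg'_eq_inertiaDeg v.asIdeal P.asIdeal,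
    IsGalois.card_aut_eq_finrank] at h1
  rw [← h1, Nat.card_congr (equivOver (L := L) v), Nat.card_coe_set_eq]

theorem nv_mul [IsGalois F L] (v : Pl F) :
    nv L v * Nat.card {P : Pl L // OvL v P} = Module.finrank F L := by
  obtain ⟨P, hP⟩ := nonempty_over (L := L) v
  have h := card_over v hP
  unfold nv
  exact Nat.div_mul_cancel ⟨_, h.symm⟩

theorem finite_ram : {v : Pl F | ¬ UnrL L v}.Finite := by
  have hd : differentIdeal (𝓞 F) (𝓞 L) ≠ ⊥ := differentIdeal_ne_bot
  have hfin : {P : Pl L | P.asIdeal ∣ differentIdeal (𝓞 F) (𝓞 L)}.Finite :=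
    Ideal.finite_factors hd
  refine (hfin.image (fun P => IsDedekindDomain.HeightOneSpectrum.under (𝓞 F) P)).subset ?_
  intro v hv
  simp only [Set.mem_setOf_eq, UnrL, not_forall] at hv
  obtain ⟨P, hP, x, hx⟩ := hv
  refine ⟨P, ?_, (IsDedekindDomain.HeightOneSpectrum.ext ((ovL_iff v P).1 hP)).symm⟩
  rw [val_down hP] at hx
  have he1 : v.asIdeal.ramificationIdx' P.asIdeal ≠ 1 := by
    intro h1
    rw [h1, pow_one] at hx
    exact hx rfl
  have he0 := ram_pos hP
  haveI := v.isPrime.isMaximal v.ne_bot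
  have h3 : P.asIdeal ^ v.asIdeal.ramificationIdx' P.asIdeal ∣
      v.asIdeal.map (algebraMap (𝓞 F) (𝓞 L)) :=
    Ideal.dvd_iff_le.2 Ideal.le_pow_ramificationIdx'
  have h4 := pow_sub_one_dvd_differentIdeal (A := 𝓞 F) P.asIdeal _ v.ne_bot h3
  show P.asIdeal ∣ differentIdeal (𝓞 F) (𝓞 L)
  refine (dvd_pow_self P.asIdeal ?_).trans h4
  omega

theorem norm_val [IsGalois F L] {v : Pl F} {P : Pl L} (x : L) :
    P.valuation L (algebraMap F L (Algebra.norm F x)) =
      ∏ τ : L ≃ₐ[F] L, (act τ P).valuation L x := by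
  rw [Algebra.norm_eq_prod_automorphisms, map_prod]
  rw [← Equiv.prod_comp (Equiv.inv (L ≃ₐ[F] L))]
  refine Finset.prod_congr rfl fun τ _ => ?_
  have h := val_act τ P (τ⁻¹ x)
  have h2 : τ (τ⁻¹ x) = x := AlgEquiv.apply_symm_apply τ x
  rw [h2] at h
  exact h.symm

end galois

end POVaux

open POVaux in
theorem st_POV : ST_POV := by
  intro F L _ _ _ _ _ _
  refine ⟨existsUnique_down, fun v => ⟨finite_over v, nonempty_over v, nv_mul v⟩, ?_, ?_, ?_,
    finite_ram, ?_, ?_⟩
  · intro τ P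
    exact ⟨act τ P, val_act τ P, fun P' h => eq_act h⟩
  · intro τ P P' h v hv
    rw [eq_act h]
    exact ovL_act τ hv
  · intro v P P' h h'
    obtain ⟨τ, rfl⟩ := trans_act h h'
    exact ⟨τ, val_act τ P⟩
  · intro v P h
    exact ⟨_, ram_pos h, val_down h⟩
  · intro v x hx
    obtain ⟨P, hP⟩ := nonempty_over (L := L) v
    have h1 := norm_val (v := v) (P := P) x
    have h2 : ∏ τ : L ≃ₐ[F] L, (act τ P).valuation L x = 1 :=
      Finset.prod_eq_one fun τ _ => hx _ (ovL_act τ hP)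
    rw [h2, val_down hP] at h1
    rcases pow_eq_one_iff.1 h1 with h3 | h3
    · exact h3
    · exact absurd h3 (ram_pos hP).ne'

end REC
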