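import Pool.Agent.Helper85.REC.Stmts7
import Pool.Agent.Helper19.REC.POV

/-! # NFR: Frobenius elements and norms -/

set_option autoImplicit false

open scoped Classical
open NumberField

namespace REC

open Pool.Agent.Helper13.ZL (Pl q)
open MU (Gal Zb Over CongPow)
open POVaux

namespace NFRaux

variable {F K : Type} [Field F] [NumberField F] [Field K] [NumberField K] [Algebra F K]

/-- the place below -/
noncomputable def pr (F : Type) {K : Type} [Field F] [NumberField F] [Field K] [NumberField K]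
    [Algebra F K] (w : Pl K) : Pl F :=
  IsDedekindDomain.HeightOneSpectrum.under (𝓞 F) w

theorem ovL_pr (w : Pl K) : OvL (pr F w) w := (ovL_iff _ _).2 rfl

theorem pr_eq {v : Pl F} {w : Pl K} (h : OvL v w) : pr F w = v :=
  (IsDedekindDomain.HeightOneSpectrum.ext ((ovL_iff v w).1 h)).symm

/-- the residue degree -/
noncomputable def dg (F : Type) {K : Type} [Field F] [NumberField F] [Field K] [NumberField K]
    [Algebra F K] (w : Pl K) : ℕ :=
  (pr F w).asIdeal.inertiaDeg' w.asIdeal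

theorem q_pr (w : Pl K) : q w = q (pr F w) ^ dg F w := by
  haveI := ovL_lies (ovL_pr (F := F) w)
  exact Ideal.absNorm_eq_pow_inertiaDeg'_of_liesOver w.asIdeal (pr F w).asIdeal (pr F w).isPrime
    (pr F w).ne_bot

theorem relNorm_pl (w : Pl K) :
    Ideal.relNorm (𝓞 F) w.asIdeal = (pr F w).asIdeal ^ dg F w := by
  haveI := ovL_lies (ovL_pr (F := F) w)
  haveI := (pr F w).isPrime.isMaximal (pr F w).ne_bot
  haveI := w.isPrime.isMaximal w.ne_bot
  rw [Ideal.relNorm_eq_pow_of_isMaximal w.asIdeal (pr F w).asIdeal]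
  unfold dg
  rw [Ideal.inertiaDeg'_eq_inertiaDeg]

/-- the Frobenius function over `K` -/
noncomputable def ph {A : Type} [CommGroup A] (φ : Pl F → A) (w : Pl K) : A :=
  φ (pr F w) ^ dg F w

theorem ev_pow (hEV : ST_EV) {A : Type} [CommGroup A] (φ : Pl F → A) (I : Ideal (𝓞 F))
    (hI : I ≠ ⊥) (n : ℕ) : ev φ (I ^ n) = ev φ I ^ n := by
  obtain ⟨h1, h2, -⟩ := hEV F A
  induction n with
  | zero => rw [pow_zero, pow_zero, Ideal.one_eq_top, h1]
  | succ n ih =>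
    rw [pow_succ, pow_succ, h2 φ _ _ (pow_ne_zero n hI) hI, ih]

theorem ev_relNorm (hEV : ST_EV) {A : Type} [CommGroup A] (φ : Pl F → A) (I : Ideal (𝓞 K))
    (hI : I ≠ ⊥) : ev (ph (K := K) φ) I = ev φ (Ideal.relNorm (𝓞 F) I) := by
  obtain ⟨h1, h2, h3, -⟩ := hEV F A
  obtain ⟨k1, k2, k3, -⟩ := hEV K A
  revert hI
  refine UniqueFactorizationMonoid.induction_on_prime
    (P := fun I : Ideal (𝓞 K) => I ≠ ⊥ → ev (ph (K := K) φ) I = ev φ (Ideal.relNorm (𝓞 F) I))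
    I ?_ ?_ ?_
  · intro h
    exact absurd rfl h
  · intro J hJ _
    rw [Ideal.isUnit_iff] at hJ
    rw [hJ, k1, Ideal.relNorm_top, h1]
  · intro J p hJ hp ih _
    have hp0 : p ≠ ⊥ := hp.ne_zero
    have hpp : p.IsPrime := Ideal.isPrime_of_prime hp
    let w : Pl K := ⟨p, hpp, hp0⟩
    have hw : p = w.asIdeal := rfl
    have hn1 : Ideal.relNorm (𝓞 F) p ≠ ⊥ := fun h => hp0 ((Ideal.relNorm_eq_bot_iff).1 h)
    have hn2 : Ideal.relNorm (𝓞 F) J ≠ ⊥ := fun h => hJ ((Ideal.relNorm_eq_bot_iff).1 h)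
    rw [k2 _ _ _ hp0 hJ, map_mul, h2 _ _ _ hn1 hn2, ih hJ]
    congr 1
    rw [hw, k3, relNorm_pl, ev_pow hEV φ _ (pr F w).ne_bot, h3]
    rfl

theorem intNorm_eq (y : 𝓞 K) : Algebra.intNorm (𝓞 F) (𝓞 K) y = RingOfIntegers.norm F y := by
  apply RingOfIntegers.coe_injective
  have h1 := Algebra.algebraMap_intNorm (A := 𝓞 F) (K := F) (L := K) (B := 𝓞 K) y
  have h2 : algebraMap (𝓞 F) F (RingOfIntegers.norm F y) = Algebra.norm F (y : K) :=
    RingOfIntegers.coe_norm F y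
  exact h1.trans h2.symm

theorem exists_fin (B : Finset (Pl F)) :
    ∃ B' : Finset (Pl K), ∀ w : Pl K, w ∈ B' ↔ ∃ v ∈ B, OvL v w := by
  have hfin : {w : Pl K | ∃ v ∈ B, OvL v w}.Finite := by
    have : {w : Pl K | ∃ v ∈ B, OvL v w} = ⋃ v ∈ B, {w : Pl K | OvL v w} := by
      ext w
      simp
    rw [this]
    refine Set.Finite.biUnion B.finite_toSet fun v _ => ?_
    exact finite_over (L := K) v
  exact ⟨hfin.toFinset, fun w => by rw [Set.Finite.mem_toFinset]; rfl⟩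

end NFRaux

open NFRaux in
theorem st_NFR (hBCT : ST_BCT) (hEV : ST_EV) : ST_NFR := by
  intro F K _ _ _ _ _ j r hbc A _ ε B φ hphi
  obtain ⟨B', hB'⟩ := exists_fin (K := K) B
  refine ⟨B', ph φ, hB', ⟨?_, ?_⟩, ?_⟩
  · intro w hw
    obtain ⟨v, hv, hvw⟩ := (hB' w).1 hw
    unfold ph
    rw [pr_eq hvw, hphi.1 v hv, one_pow]
  · intro w hw 𝔔 h𝔔 i σ hσ
    have hv : pr F w ∉ B := fun h => hw ((hB' w).2 ⟨_, h, ovL_pr w⟩)
    obtain ⟨𝔓, -, h2, h3⟩ := hBCT F K j r hbc 𝔔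
    have h4 := h3 (pr F w) w (ovL_pr w) h𝔔
    have h5 := (h2 _ σ).1 hσ
    rw [q_pr (F := F) w, ← pow_mul] at h5
    have h6 := hphi.2 (pr F w) hv 𝔓 h4 _ _ h5
    rw [MonoidHom.comp_apply, h6]
    unfold ph
    rw [pow_mul]
  · intro y hy _
    rw [ev_relNorm hEV φ _ (by simpa using hy), Ideal.relNorm_singleton, intNorm_eq]

end REC
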