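import Pool.Agent.Helper19.REC.SLG

/-!
# RIB: subgroups of a power of `SL_2` with full projections to the pairs
-/

set_option autoImplicit false

open scoped Classical
open NumberField Polynomial

namespace REC

/-- `SL_2` is perfect -/
theorem rib_perfect {l : ℕ} [Fact l.Prime] (hl : 5 < l)
    (K : Subgroup (Matrix.SpecialLinearGroup (Fin 2) (ZMod l)))
    (hK : ∀ p q, p * q * p⁻¹ * q⁻¹ ∈ K) : ∀ z, z ∈ K := by
  have h2 : (2 : ZMod l) ≠ 0 := by
    intro h
    have h1 : ((2 : ℕ) : ZMod l) = 0 := by exact_mod_cast h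
    have := Nat.le_of_dvd (by norm_num) ((ZMod.natCast_eq_zero_iff 2 l).1 h1)
    omega
  have h3 : (3 : ZMod l) ≠ 0 := by
    intro h
    have h1 : ((3 : ℕ) : ZMod l) = 0 := by exact_mod_cast h
    have := Nat.le_of_dvd (by norm_num) ((ZMod.natCast_eq_zero_iff 3 l).1 h1)
    omega
  have hD : (!![2, 0; 0, 2⁻¹] : Matrix (Fin 2) (Fin 2) (ZMod l)).det = 1 := by
    rw [Matrix.det_fin_two_of, mul_inv_cancel₀ h2]
    ring
  obtain ⟨In, hIn⟩ : ∃ In : Matrix (Fin 2) (Fin 2) (ZMod l) → Prop, In = fun Z =>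
      ∃ z ∈ K, (z : Matrix (Fin 2) (Fin 2) (ZMod l)) = Z := ⟨_, rfl⟩
  have hmul : ∀ Z Z', In Z → In Z' → In (Z * Z') := by
    rw [hIn]
    rintro Z Z' ⟨y, hy, h1⟩ ⟨y', hy', h2⟩
    exact ⟨y * y', K.mul_mem hy hy', by rw [Matrix.SpecialLinearGroup.coe_mul, h1, h2]⟩
  have hU : ∀ s : ZMod l, In !![1, s; 0, 1] := by
    intro s
    rw [hIn]
    have hs : (!![1, s / 3; 0, 1] : Matrix (Fin 2) (Fin 2) (ZMod l)).det = 1 := by
      rw [Matrix.det_fin_two_of]
      ring
    refine ⟨_, hK ⟨_, hD⟩ ⟨_, hs⟩, ?_⟩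
    rw [Matrix.SpecialLinearGroup.coe_mul, Matrix.SpecialLinearGroup.coe_mul,
      Matrix.SpecialLinearGroup.coe_mul, Matrix.SpecialLinearGroup.coe_inv,
      Matrix.SpecialLinearGroup.coe_inv]
    show !![2, 0; 0, 2⁻¹] * !![1, s / 3; 0, 1] * (!![2, 0; 0, 2⁻¹]).adjugate *
      (!![1, s / 3; 0, 1]).adjugate = _
    rw [Matrix.adjugate_fin_two_of, Matrix.adjugate_fin_two_of]
    ext i j
    fin_cases i <;> fin_cases j
    · simp [Matrix.mul_apply, Fin.sum_univ_two, h2]
    · simp [Matrix.mul_apply, Fin.sum_univ_two, h2]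
      field_simp
      ring
    · simp [Matrix.mul_apply, Fin.sum_univ_two, h2]
    · simp [Matrix.mul_apply, Fin.sum_univ_two, h2]
  have hL : ∀ s : ZMod l, In !![1, 0; s, 1] := by
    intro s
    rw [hIn]
    have hs' : (!![1, 0; -(s * 4) / 3, 1] : Matrix (Fin 2) (Fin 2) (ZMod l)).det = 1 := by
      rw [Matrix.det_fin_two_of]
      ring
    refine ⟨_, hK ⟨_, hD⟩ ⟨_, hs'⟩, ?_⟩
    rw [Matrix.SpecialLinearGroup.coe_mul, Matrix.SpecialLinearGroup.coe_mul,
      Matrix.SpecialLinearGroup.coe_mul, Matrix.SpecialLinearGroup.coe_inv,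
      Matrix.SpecialLinearGroup.coe_inv]
    show !![2, 0; 0, 2⁻¹] * !![1, 0; -(s * 4) / 3, 1] * (!![2, 0; 0, 2⁻¹]).adjugate *
      (!![1, 0; -(s * 4) / 3, 1]).adjugate = _
    rw [Matrix.adjugate_fin_two_of, Matrix.adjugate_fin_two_of]
    ext i j
    fin_cases i <;> fin_cases j
    · simp [Matrix.mul_apply, Fin.sum_univ_two, h2]
    · simp [Matrix.mul_apply, Fin.sum_univ_two, h2]
    · simp [Matrix.mul_apply, Fin.sum_univ_two, h2]
      field_simp
      ring
    · simp [Matrix.mul_apply, Fin.sum_univ_two, h2]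
  intro z
  have h1 := slg_gauss In hmul hU hL z z.2
  rw [hIn] at h1
  obtain ⟨y, hy, h2⟩ := h1
  have h4 : y = z := Subtype.ext h2
  rw [← h4]
  exact hy

theorem st_RIB : ST_RIB := by
  intro l t hl hl5 Γ h1 h2
  haveI := hl
  have main : ∀ (m : ℕ) (A : Finset (Fin t)), A.card = m →
      ∀ y : Fin t → Matrix.SpecialLinearGroup (Fin 2) (ZMod l), ∃ x ∈ Γ, ∀ i ∈ A, x i = y i := by
    intro m
    induction m using Nat.strong_induction_on with
    | _ m ih =>
      intro A hA y
      rcases Nat.lt_or_ge m 3 with hm | hm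
      · interval_cases m
        · rw [Finset.card_eq_zero] at hA
          exact ⟨1, Γ.one_mem, fun i hi => by rw [hA] at hi; simp at hi⟩
        · obtain ⟨a, rfl⟩ := Finset.card_eq_one.1 hA
          obtain ⟨x, hx, h⟩ := h1 a (y a)
          refine ⟨x, hx, fun i hi => ?_⟩
          rw [Finset.mem_singleton] at hi
          rw [hi, h]
        · obtain ⟨a, b, hab, rfl⟩ := Finset.card_eq_two.1 hA
          obtain ⟨x, hx, ha, hb⟩ := h2 a b hab (y a) (y b)
          refine ⟨x, hx, fun i hi => ?_⟩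
          rw [Finset.mem_insert, Finset.mem_singleton] at hi
          rcases hi with rfl | rfl
          · exact ha
          · exact hb
      · obtain ⟨a, ha⟩ : A.Nonempty := Finset.card_pos.1 (by omega)
        have hc1 : (A.erase a).card = m - 1 := by rw [Finset.card_erase_of_mem ha, hA]
        obtain ⟨b, hb⟩ : (A.erase a).Nonempty := Finset.card_pos.1 (by omega)
        have hb1 := Finset.mem_erase.1 hb
        have hc2 : (A.erase b).card = m - 1 := by rw [Finset.card_erase_of_mem hb1.2, hA]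
        have hc3 : ({a, b} : Finset (Fin t)).card = 2 := Finset.card_pair (Ne.symm hb1.1)
        obtain ⟨K, hK⟩ : ∃ K : Subgroup (Matrix.SpecialLinearGroup (Fin 2) (ZMod l)), ∀ s,
            s ∈ K ↔ ∃ x ∈ Γ, x a = s ∧ ∀ i ∈ A, i ≠ a → x i = 1 := by
          refine ⟨{ carrier := {s | ∃ x ∈ Γ, x a = s ∧ ∀ i ∈ A, i ≠ a → x i = 1}
                    mul_mem' := ?_
                    one_mem' := ?_
                    inv_mem' := ?_ }, fun s => Iff.rfl⟩
          · rintro s s' ⟨x, hx, h, h'⟩ ⟨x', hx', g, g'⟩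
            refine ⟨x * x', Γ.mul_mem hx hx', ?_, fun i hi hia => ?_⟩
            · rw [Pi.mul_apply, h, g]
            · rw [Pi.mul_apply, h' i hi hia, g' i hi hia, mul_one]
          · exact ⟨1, Γ.one_mem, rfl, fun i _ _ => rfl⟩
          · rintro s ⟨x, hx, h, h'⟩
            refine ⟨x⁻¹, Γ.inv_mem hx, ?_, fun i hi hia => ?_⟩
            · rw [Pi.inv_apply, h]
            · rw [Pi.inv_apply, h' i hi hia, inv_one]
        have hfull : ∀ s, s ∈ K := by
          refine rib_perfect hl5 K (fun p q => ?_)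
          obtain ⟨x, hx, hx'⟩ := ih 2 (by omega) {a, b} hc3 (Function.update 1 a p)
          obtain ⟨z, hz, hz'⟩ := ih (m - 1) (by omega) (A.erase b) hc2 (Function.update 1 a q)
          rw [hK]
          have hxa : x a = p := by
            rw [hx' a (Finset.mem_insert_self _ _), Function.update_self]
          have hxb : x b = 1 := by
            rw [hx' b (Finset.mem_insert_of_mem (Finset.mem_singleton_self _)),
              Function.update_of_ne hb1.1, Pi.one_apply]
          have hza : z a = q := by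
            rw [hz' a (Finset.mem_erase.2 ⟨Ne.symm hb1.1, ha⟩), Function.update_self]
          refine ⟨x * z * x⁻¹ * z⁻¹, Γ.mul_mem (Γ.mul_mem (Γ.mul_mem hx hz) (Γ.inv_mem hx))
            (Γ.inv_mem hz), ?_, fun i hi hia => ?_⟩
          · rw [Pi.mul_apply, Pi.mul_apply, Pi.mul_apply, Pi.inv_apply, Pi.inv_apply, hxa, hza]
          · rw [Pi.mul_apply, Pi.mul_apply, Pi.mul_apply, Pi.inv_apply, Pi.inv_apply]
            by_cases hib : i = b
            · rw [hib, hxb]
              group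
            · have hzi : z i = 1 := by
                rw [hz' i (Finset.mem_erase.2 ⟨hib, hi⟩), Function.update_of_ne hia, Pi.one_apply]
              rw [hzi]
              group
        obtain ⟨x, hx, hx'⟩ := ih (m - 1) (by omega) (A.erase a) hc1 y
        obtain ⟨k, hk, hka, hk'⟩ := (hK _).1 (hfull ((x a)⁻¹ * y a))
        refine ⟨x * k, Γ.mul_mem hx hk, fun i hi => ?_⟩
        rw [Pi.mul_apply]
        by_cases hia : i = a
        · rw [hia, hka, mul_inv_cancel_left]
        · rw [hk' i hi hia, mul_one, hx' i (Finset.mem_erase.2 ⟨hia, hi⟩)]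
  rw [eq_top_iff]
  intro y _
  obtain ⟨x, hx, h⟩ := main _ Finset.univ rfl y
  have : x = y := funext fun i => h i (Finset.mem_univ i)
  rw [← this]
  exact hx

end REC
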