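import Pool.Agent.Helper85.REC.Stmts14

/-!
# SCA: completely reducible representations of rank two with double eigenvalues are scalar
-/

set_option autoImplicit false

open scoped Classical
open NumberField Polynomial

namespace REC

open MU

theorem sca_npn {K : Type} [Field K] (N P : Matrix (Fin 2) (Fin 2) K) (h : N.det = 0) :
    N * P * N = (P * N).trace • N := by
  rw [Matrix.det_fin_two] at h
  ext i l
  simp only [Matrix.mul_apply, Fin.sum_univ_two, Matrix.trace_fin_two, Matrix.smul_apply,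
    smul_eq_mul]
  fin_cases i <;> fin_cases l
  · show (N 0 0 * P 0 0 + N 0 1 * P 1 0) * N 0 0 + (N 0 0 * P 0 1 + N 0 1 * P 1 1) * N 1 0 = _ * N 0 0
    linear_combination (-(P 1 1)) * h
  · show (N 0 0 * P 0 0 + N 0 1 * P 1 0) * N 0 1 + (N 0 0 * P 0 1 + N 0 1 * P 1 1) * N 1 1 = _ * N 0 1
    linear_combination (P 0 1) * h
  · show (N 1 0 * P 0 0 + N 1 1 * P 1 0) * N 0 0 + (N 1 0 * P 0 1 + N 1 1 * P 1 1) * N 1 0 = _ * N 1 0
    linear_combination (P 1 0) * h
  · show (N 1 0 * P 0 0 + N 1 1 * P 1 0) * N 0 1 + (N 1 0 * P 0 1 + N 1 1 * P 1 1) * N 1 1 = _ * N 1 1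
    linear_combination (-(P 0 0)) * h

theorem sca_ch {K : Type} [Field K] (M : Matrix (Fin 2) (Fin 2) K) :
    M * M = M.trace • M - M.det • (1 : Matrix (Fin 2) (Fin 2) K) := by
  ext i l
  simp only [Matrix.mul_apply, Fin.sum_univ_two, Matrix.trace_fin_two, Matrix.smul_apply,
    Matrix.sub_apply, smul_eq_mul, Matrix.det_fin_two]
  fin_cases i <;> fin_cases l <;> simp <;> ring

theorem st_SCA : ST_SCA := by
  intro G K _ _ _ r hss htr g0
  obtain ⟨M, hM⟩ : ∃ M, M = r g0 := ⟨_, rfl⟩
  obtain ⟨a, ha⟩ : ∃ a : K, a = M.trace / 2 := ⟨_, rfl⟩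
  have h2 : (2 : K) ≠ 0 := two_ne_zero
  have h4 : (4 : K) ≠ 0 := by norm_num
  have htM : M.trace = 2 * a := by rw [ha]; field_simp
  have hdet : M.det = a ^ 2 := by
    have h := htr g0
    rw [← hM, htM] at h
    apply mul_left_cancel₀ h4
    linear_combination -h
  have hdn : M.det ≠ 0 := by
    intro h0
    have h : r (g0 * g0⁻¹) = r g0 * r g0⁻¹ := map_mul r _ _
    rw [mul_inv_cancel, map_one] at h
    have h' := congrArg Matrix.det h
    rw [Matrix.det_one, Matrix.det_mul, ← hM, h0, zero_mul] at h'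
    exact one_ne_zero h'
  have ha0 : a ≠ 0 := fun h => hdn (by rw [hdet, h]; ring)
  obtain ⟨N, hN⟩ : ∃ N, N = M - a • (1 : Matrix (Fin 2) (Fin 2) K) := ⟨_, rfl⟩
  have hMN : M = N + a • (1 : Matrix (Fin 2) (Fin 2) K) := by rw [hN]; abel
  have hMM : M * M = (2 * a) • M - (a ^ 2) • (1 : Matrix (Fin 2) (Fin 2) K) := by
    rw [sca_ch M, htM, hdet]
  have hNd : N.det = 0 := by
    have h1 := htM
    have h2 := hdet
    rw [Matrix.trace_fin_two] at h1
    rw [Matrix.det_fin_two] at h2
    rw [hN, Matrix.det_fin_two]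
    simp only [Matrix.sub_apply, Matrix.smul_apply, smul_eq_mul]
    simp
    linear_combination h2 - a * h1
  have hNt : N.trace = 0 := by
    rw [hN, Matrix.trace_sub, Matrix.trace_smul, htM, Matrix.trace_one]
    simp
    ring
  have hNN : N * N = 0 := by
    rw [sca_ch N, hNd, hNt]
    simp
  have key : ∀ g, (r g * N).trace = 0 := by
    intro g
    obtain ⟨P, hP⟩ : ∃ P, P = r g := ⟨_, rfl⟩
    obtain ⟨t, ht⟩ : ∃ t, t = P.trace := ⟨_, rfl⟩
    obtain ⟨s, hs⟩ : ∃ s, s = (P * N).trace := ⟨_, rfl⟩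
    have e0 := htr g
    have e1 := htr (g * g0)
    have e2 := htr (g * (g0 * g0))
    rw [map_mul, map_mul, ← hP, ← hM] at e2
    rw [map_mul, ← hP, ← hM] at e1
    rw [← hP] at e0
    have f1 : (P * M).trace = s + a * t := by
      rw [hMN, mul_add, Matrix.trace_add, ← hs, Matrix.mul_smul, Matrix.mul_one,
        Matrix.trace_smul, ← ht, smul_eq_mul]
    have f2 : (P * (M * M)).trace = 2 * a * s + a ^ 2 * t := by
      rw [hMM, Matrix.mul_sub, Matrix.trace_sub, Matrix.mul_smul, Matrix.mul_smul,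
        Matrix.trace_smul, Matrix.trace_smul, Matrix.mul_one, f1, ← ht, smul_eq_mul, smul_eq_mul]
      ring
    rw [f1, Matrix.det_mul, hdet] at e1
    rw [f2, Matrix.det_mul, Matrix.det_mul, hdet] at e2
    rw [← ht] at e0
    have g1 : s * (2 * a * t + s) = 0 := by linear_combination e1 - a ^ 2 * e0
    have g2 : (4 * a ^ 2) * (s * (a * t + s)) = 0 := by linear_combination e2 - a ^ 4 * e0
    have g3 : s * (a * t + s) = 0 := by
      rcases mul_eq_zero.1 g2 with h | h
      · exact absurd h (mul_ne_zero h4 (pow_ne_zero 2 ha0))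
      · exact h
    have g4 : s * s = 0 := by linear_combination 2 * g3 - g1
    rw [← hP, ← hs]
    exact mul_self_eq_zero.1 g4
  have hNgN : ∀ g, N * r g * N = 0 := by
    intro g
    rw [sca_npn N (r g) hNd, key g, zero_smul]
  refine ⟨a, ?_⟩
  rw [← hM]
  by_contra hcon
  have hN0 : N ≠ 0 := fun h => hcon (by rw [hMN, h, zero_add])
  obtain ⟨k, j, hkj⟩ : ∃ k j, N k j ≠ 0 := by
    by_contra h
    push Not at h
    exact hN0 (by ext i l; exact h i l)
  obtain ⟨B, hB⟩ : ∃ B : Matrix (Fin 2) (Fin 1) K, B = fun i _ => N i j := ⟨_, rfl⟩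
  have hNB : ∀ X : Matrix (Fin 2) (Fin 2) K, N * X * N = 0 → N * (X * B) = 0 := by
    intro X hX
    ext i l
    have h := congrFun (congrFun hX i) j
    rw [Matrix.mul_assoc] at h
    rw [hB]
    exact h
  -- the kernel of `N`
  have hker : ∀ x : Fin 2 → K, (∀ i, N i 0 * x 0 + N i 1 * x 1 = 0) → ∀ i,
      x i = N i j * (x k / N k j) := by
    intro x hx i
    have h1 : ∀ i, N i 0 * N 0 j + N i 1 * N 1 j = 0 := by
      intro i
      have h := congrFun (congrFun hNN i) j
      rw [Matrix.mul_apply, Fin.sum_univ_two] at h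
      exact h
    have h3 : N k 0 ≠ 0 ∨ N k 1 ≠ 0 := by
      fin_cases j
      · exact Or.inl hkj
      · exact Or.inr hkj
    have h5 : x 0 * N 1 j = x 1 * N 0 j := by
      rcases h3 with h3 | h3
      · apply mul_left_cancel₀ h3
        linear_combination N 1 j * hx k - x 1 * h1 k
      · apply mul_left_cancel₀ h3
        linear_combination - N 0 j * hx k + x 0 * h1 k
    have h6 : x i * N k j = N i j * x k := by
      fin_cases i <;> fin_cases k
      · exact mul_comm _ _
      · show x 0 * N 1 j = N 0 j * x 1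
        rw [h5, mul_comm]
      · show x 1 * N 0 j = N 1 j * x 0
        rw [← h5, mul_comm]
      · exact mul_comm _ _
    rw [← mul_div_assoc, ← h6]
    exact (mul_div_cancel_right₀ _ hkj).symm
  obtain ⟨A, hA⟩ : ∃ A : G → Matrix (Fin 1) (Fin 1) K,
      A = fun g _ _ => (r g * B) k 0 / N k j := ⟨_, rfl⟩
  have hsub : ∀ g, r g * B = B * A g := by
    intro g
    ext i l
    have hl : l = 0 := Subsingleton.elim _ _
    subst hl
    have h1 := hNB (r g) (hNgN g)
    have h2 := hker (fun i => (r g * B) i 0) (fun i => by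
      have h := congrFun (congrFun h1 i) 0
      rw [Matrix.mul_apply, Fin.sum_univ_two] at h
      exact h) i
    rw [Matrix.mul_apply (M := B), Finset.univ_unique, Finset.sum_singleton, hA, hB]
    rw [hB] at h2
    exact h2
  have hIs : IsSub r B A := by
    refine ⟨⟨fun _ i => if i = k then (N k j)⁻¹ else 0, ?_⟩, hsub⟩
    ext i l
    have hi : i = 0 := Subsingleton.elim _ _
    have hl : l = 0 := Subsingleton.elim _ _
    subst hi
    subst hl
    rw [Matrix.mul_apply, Matrix.one_apply_eq, Finset.sum_eq_single k]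
    · rw [if_pos rfl, hB]
      exact inv_mul_cancel₀ hkj
    · intro b _ hb
      rw [if_neg hb, zero_mul]
    · intro h
      exact absurd (Finset.mem_univ k) h
  obtain ⟨C, hC, hC2⟩ := hss 1 B A hIs
  have hMB : M * B = a • B := by
    have h1 := hNB 1 (by rw [Matrix.mul_one]; exact hNN)
    rw [Matrix.one_mul] at h1
    rw [hMN, Matrix.add_mul, h1, zero_add, Matrix.smul_mul, Matrix.one_mul]
  have hAg : A g0 = a • (1 : Matrix (Fin 1) (Fin 1) K) := by
    ext i l
    have hi : i = 0 := Subsingleton.elim _ _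
    have hl : l = 0 := Subsingleton.elim _ _
    subst hi
    subst hl
    rw [hA]
    show (r g0 * B) k 0 / N k j = _
    rw [← hM, hMB, hB]
    show a * N k j / N k j = a * _
    rw [Matrix.one_apply_eq, mul_one]
    exact mul_div_cancel_right₀ _ hkj
  have hCM : C * M = a • C := by
    have h := hC2 g0
    rw [← hM, hAg, Matrix.smul_mul, Matrix.one_mul] at h
    exact h
  have hCN : C * N = 0 := by
    rw [hN, Matrix.mul_sub, hCM, Matrix.mul_smul, Matrix.mul_one, sub_self]
  have h1 := congrFun (congrFun hC 0) 0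
  have h3 := congrFun (congrFun hCN 0) j
  rw [Matrix.mul_apply] at h1 h3
  rw [hB] at h1
  rw [Matrix.one_apply_eq] at h1
  rw [h3] at h1
  exact zero_ne_one h1

end REC
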