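import Pool.Agent.Helper19.REC.SCA

/-!
# SLG: normal subgroups of irreducible groups whose order is divisible by `l`
-/

set_option autoImplicit false

open scoped Classical
open NumberField Polynomial

namespace REC

open MU

/-- the kernel of a nilpotent matrix with two rows -/
theorem slg_ker {K : Type} [Field K] {N : Matrix (Fin 2) (Fin 2) K} (hNN : N * N = 0)
    {k j : Fin 2} (hkj : N k j ≠ 0) {x : Fin 2 → K} (hx : N.mulVec x = 0) :
    x = (x k / N k j) • (fun i => N i j) := by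
  have hx : ∀ i, N i 0 * x 0 + N i 1 * x 1 = 0 := by
    intro i
    have h := congrFun hx i
    rw [Matrix.mulVec, dotProduct, Fin.sum_univ_two] at h
    exact h
  have h1 : ∀ i, N i 0 * N 0 j + N i 1 * N 1 j = 0 := by
    intro i
    have h := congrFun (congrFun hNN i) j
    rw [Matrix.mul_apply, Fin.sum_univ_two] at h
    exact h
  have h3 : N k 0 ≠ 0 ∨ N k 1 ≠ 0 := by
    fin_cases j
    · exact Or.inl hkj
    · exact Or.inr hkj
  have h5 : x 0 * N 1 j = x 1 * N 0 j := by
    rcases h3 with h3 | h3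
    · apply mul_left_cancel₀ h3
      linear_combination N 1 j * hx k - x 1 * h1 k
    · apply mul_left_cancel₀ h3
      linear_combination - N 0 j * hx k + x 0 * h1 k
  ext i
  have h6 : x i * N k j = N i j * x k := by
    fin_cases i <;> fin_cases k
    · exact mul_comm _ _
    · show x 0 * N 1 j = N 0 j * x 1
      rw [h5, mul_comm]
    · show x 1 * N 0 j = N 1 j * x 0
      rw [← h5, mul_comm]
    · exact mul_comm _ _
  show x i = x k / N k j * N i j
  rw [div_mul_eq_mul_div, mul_comm (x k), ← h6]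
  exact (mul_div_cancel_right₀ _ hkj).symm

/-- Gauss elimination -/
theorem slg_gauss {K : Type} [Field K] (In : Matrix (Fin 2) (Fin 2) K → Prop)
    (hmul : ∀ Z Z', In Z → In Z' → In (Z * Z')) (hU : ∀ s : K, In !![1, s; 0, 1])
    (hL : ∀ s : K, In !![1, 0; s, 1]) : ∀ Z : Matrix (Fin 2) (Fin 2) K, Z.det = 1 → In Z := by
  have h1 : ∀ Z : Matrix (Fin 2) (Fin 2) K, Z.det = 1 → Z 1 0 ≠ 0 → In Z := by
    intro Z hZ h0
    rw [Matrix.det_fin_two] at hZ
    have h2 : Z = !![1, (Z 0 0 - 1) / Z 1 0; 0, 1] * !![1, 0; Z 1 0, 1] *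
        !![1, (Z 1 1 - 1) / Z 1 0; 0, 1] := by
      ext i l
      fin_cases i <;> fin_cases l
      · simp [Matrix.mul_apply, Fin.sum_univ_two]
        field_simp
        ring
      · simp [Matrix.mul_apply, Fin.sum_univ_two]
        field_simp
        linear_combination -hZ
      · simp [Matrix.mul_apply, Fin.sum_univ_two]
      · simp [Matrix.mul_apply, Fin.sum_univ_two]
        field_simp
        ring
    rw [h2]
    exact hmul _ _ (hmul _ _ (hU _) (hL _)) (hU _)
  intro Z hZ
  by_cases h0 : Z 1 0 = 0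
  · have h3 : Z = (Z * !![1, 0; 1, 1]) * !![1, 0; -1, 1] := by
      rw [Matrix.mul_assoc]
      have : (!![1, 0; 1, 1] * !![1, 0; -1, 1] : Matrix (Fin 2) (Fin 2) K) = 1 := by
        ext i l
        fin_cases i <;> fin_cases l <;> simp [Matrix.mul_apply, Fin.sum_univ_two]
      rw [this, Matrix.mul_one]
    rw [h3]
    refine hmul _ _ (h1 _ ?_ ?_) (hL _)
    · rw [Matrix.det_mul, hZ, Matrix.det_fin_two]
      simp
    · rw [Matrix.det_fin_two, h0] at hZ
      rw [Matrix.mul_apply, Fin.sum_univ_two, h0]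
      simp
      intro h4
      rw [h4] at hZ
      simp at hZ
  · exact h1 Z hZ h0

theorem st_SLG : ST_SLG := by
  intro l hl G N hNG hnorm hirr hcard Y hY
  haveI := hl
  obtain ⟨x, hx⟩ := exists_prime_orderOf_dvd_card' l hcard
  obtain ⟨X, hX⟩ : ∃ X : Matrix (Fin 2) (Fin 2) (ZMod l), X =
      ((x : Matrix.GeneralLinearGroup (Fin 2) (ZMod l)) : Matrix (Fin 2) (Fin 2) (ZMod l)) :=
    ⟨_, rfl⟩
  have hXl : X ^ l = 1 := by
    have h1 : x ^ l = 1 := orderOf_dvd_iff_pow_eq_one.1 hx.dvd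
    have h2 : (x : Matrix.GeneralLinearGroup (Fin 2) (ZMod l)) ^ l = 1 := by
      have := congrArg (Subgroup.subtype N) h1
      rw [map_pow, map_one] at this
      exact this
    have h3 := congrArg (Units.val) h2
    rw [Units.val_pow_eq_pow_val, Units.val_one, ← hX] at h3
    exact h3
  have hX1 : X ≠ 1 := by
    intro h
    have h1 : (x : Matrix.GeneralLinearGroup (Fin 2) (ZMod l)) = 1 := Units.ext (by
      rw [← hX, h]; rfl)
    have h2 : x = 1 := Subtype.ext h1
    rw [h2, orderOf_one] at hx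
    exact hl.out.one_lt.ne hx
  obtain ⟨n, hn⟩ : ∃ n, n = X - 1 := ⟨_, rfl⟩
  have hXn : X = n + 1 := by rw [hn]; abel
  have hn0 : n ≠ 0 := fun h => hX1 (by rw [hXn, h, zero_add])
  have hnl : n ^ l = 0 := by
    rw [hn, sub_pow_char_of_commute l (Commute.one_right X), hXl, one_pow, sub_self]
  have hnil : IsNilpotent n := ⟨l, hnl⟩
  have hnd : n.det = 0 := by
    have h := congrArg Matrix.det hnl
    rw [Matrix.det_pow, Matrix.det_zero] at h
    exact pow_eq_zero_iff (hl.out.ne_zero) |>.1 h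
  have hnt : n.trace = 0 := (Matrix.isNilpotent_trace_of_isNilpotent hnil).eq_zero
  have hNN : n * n = 0 := by
    rw [sca_ch n, hnd, hnt]
    simp
  obtain ⟨k, j, hkj⟩ : ∃ k j, n k j ≠ 0 := by
    by_contra h
    push Not at h
    exact hn0 (by ext i l; exact h i l)
  obtain ⟨v, hv⟩ : ∃ v : Fin 2 → ZMod l, v = fun i => n i j := ⟨_, rfl⟩
  have hv0 : v ≠ 0 := fun h => hkj (by
    have := congrFun h k
    rw [hv] at this
    exact this)
  have hker : ∀ y : Fin 2 → ZMod l, n.mulVec y = 0 → ∃ c : ZMod l, y = c • v := by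
    intro y hy
    refine ⟨y k / n k j, ?_⟩
    rw [hv]
    exact slg_ker hNN hkj hy
  have him : ∀ y : Fin 2 → ZMod l, ∃ c : ZMod l, n.mulVec y = c • v := by
    intro y
    refine hker _ ?_
    rw [Matrix.mulVec_mulVec, hNN, Matrix.zero_mulVec]
  have hnv : n.mulVec v = 0 := by
    ext i
    have h := congrFun (congrFun hNN i) j
    rw [Matrix.mul_apply] at h
    rw [hv, Matrix.mulVec, dotProduct]
    exact h
  obtain ⟨g, hg, hgv⟩ := hirr v hv0
  obtain ⟨W, hW⟩ : ∃ W : Matrix (Fin 2) (Fin 2) (ZMod l), W =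
      (g : Matrix (Fin 2) (Fin 2) (ZMod l)) := ⟨_, rfl⟩
  obtain ⟨W', hW'⟩ : ∃ W' : Matrix (Fin 2) (Fin 2) (ZMod l), W' =
      ((g⁻¹ : Matrix.GeneralLinearGroup (Fin 2) (ZMod l)) : Matrix (Fin 2) (Fin 2) (ZMod l)) :=
    ⟨_, rfl⟩
  have hWW : W' * W = 1 := by
    rw [hW, hW', ← Units.val_mul, inv_mul_cancel, Units.val_one]
  have hWW2 : W * W' = 1 := by
    rw [hW, hW', ← Units.val_mul, mul_inv_cancel, Units.val_one]
  rw [← hW] at hgv
  obtain ⟨w, hw⟩ : ∃ w, w = W.mulVec v := ⟨_, rfl⟩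
  rw [← hw] at hgv
  have hnw : n.mulVec w ≠ 0 := fun h => by
    obtain ⟨c, hc⟩ := hker w h
    exact hgv c hc
  obtain ⟨c, hc⟩ := him w
  have hc0 : c ≠ 0 := fun h => hnw (by rw [hc, h, zero_smul])
  have hXv : X.mulVec v = v := by
    rw [hXn, Matrix.add_mulVec, hnv, zero_add, Matrix.one_mulVec]
  have hXw : X.mulVec w = c • v + w := by
    rw [hXn, Matrix.add_mulVec, hc, Matrix.one_mulVec]
  obtain ⟨d, hd⟩ := him (W'.mulVec v)
  have hd0 : d ≠ 0 := by
    intro h
    rw [h, zero_smul] at hd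
    obtain ⟨b, hb⟩ := hker _ hd
    have h1 : v = b • w := by
      have h2 := congrArg (fun y => W.mulVec y) hb
      simp only [Matrix.mulVec_mulVec, Matrix.mulVec_smul] at h2
      rw [hWW2, Matrix.one_mulVec, ← hw] at h2
      exact h2
    have hb0 : b ≠ 0 := fun h2 => hv0 (by rw [h1, h2, zero_smul])
    refine hgv b⁻¹ ?_
    rw [h1, smul_smul, inv_mul_cancel₀ hb0, one_smul]
  obtain ⟨X', hX'⟩ : ∃ X', X' = W * X * W' := ⟨_, rfl⟩
  have hX'w : X'.mulVec w = w := by
    rw [hX', hw, Matrix.mulVec_mulVec, Matrix.mul_assoc, Matrix.mul_assoc, hWW, Matrix.mul_one,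
      ← Matrix.mulVec_mulVec, hXv]
  have hX'v : X'.mulVec v = v + d • w := by
    rw [hX', ← Matrix.mulVec_mulVec, ← Matrix.mulVec_mulVec, hXn, Matrix.add_mulVec, hd,
      Matrix.one_mulVec, Matrix.mulVec_add, Matrix.mulVec_smul, ← hw, Matrix.mulVec_mulVec, hWW2,
      Matrix.one_mulVec, add_comm]
  obtain ⟨T, hT⟩ : ∃ T : Matrix (Fin 2) (Fin 2) (ZMod l), T = !![v 0, w 0; v 1, w 1] := ⟨_, rfl⟩
  have hTd : T.det ≠ 0 := by
    intro h
    rw [hT, Matrix.det_fin_two] at h
    simp only [Matrix.of_apply, Matrix.cons_val', Matrix.cons_val_zero, Matrix.cons_val_one,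
      Matrix.cons_val_fin_one] at h
    by_cases h0 : v 0 = 0
    · have h1 : v 1 ≠ 0 := fun h1 => hv0 (by
        ext i
        fin_cases i
        · exact h0
        · exact h1)
      have h2 : w 0 = 0 := by
        rw [h0, zero_mul, zero_sub, neg_eq_zero] at h
        exact (mul_eq_zero.1 h).resolve_right h1
      refine hgv (w 1 / v 1) ?_
      ext i
      fin_cases i
      · show w 0 = w 1 / v 1 * v 0
        rw [h2, h0, mul_zero]
      · show w 1 = w 1 / v 1 * v 1
        rw [div_mul_cancel₀ _ h1]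
    · refine hgv (w 0 / v 0) ?_
      ext i
      fin_cases i
      · show w 0 = w 0 / v 0 * v 0
        rw [div_mul_cancel₀ _ h0]
      · show w 1 = w 0 / v 0 * v 1
        field_simp
        linear_combination h
  obtain ⟨In, hIn⟩ : ∃ In : Matrix (Fin 2) (Fin 2) (ZMod l) → Prop, In = fun Z =>
      ∃ y ∈ N, (y : Matrix (Fin 2) (Fin 2) (ZMod l)) * T = T * Z := ⟨_, rfl⟩
  have hmul : ∀ Z Z', In Z → In Z' → In (Z * Z') := by
    rw [hIn]
    rintro Z Z' ⟨y, hy, h1⟩ ⟨y', hy', h2⟩
    refine ⟨y * y', N.mul_mem hy hy', ?_⟩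
    rw [Units.val_mul, Matrix.mul_assoc, h2, ← Matrix.mul_assoc, h1, Matrix.mul_assoc]
  have hpow : ∀ (M : ZMod l → Matrix (Fin 2) (Fin 2) (ZMod l)), M 0 = 1 →
      (∀ a b, M (a + b) = M a * M b) → ∀ c : ZMod l, c ≠ 0 → In (M c) → ∀ s, In (M s) := by
    intro M h0 hadd c hc h1 s
    have h2 : ∀ i : ℕ, In (M (i * c)) := by
      intro i
      induction i with
      | zero =>
        rw [Nat.cast_zero, zero_mul, h0, hIn]
        exact ⟨1, N.one_mem, by rw [Units.val_one, Matrix.one_mul, Matrix.mul_one]⟩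
      | succ i ih =>
        have : ((i + 1 : ℕ) : ZMod l) * c = i * c + c := by push_cast; ring
        rw [this, hadd]
        exact hmul _ _ ih h1
    have h3 := h2 (s / c).val
    rw [ZMod.natCast_zmod_val, div_mul_cancel₀ _ hc] at h3
    exact h3
  have hU : ∀ s : ZMod l, In !![1, s; 0, 1] := by
    refine hpow (fun s => !![1, s; 0, 1]) ?_ ?_ c hc0 ?_
    · ext i l
      fin_cases i <;> fin_cases l <;> rfl
    · intro a b
      ext i l
      fin_cases i <;> fin_cases l <;> simp [Matrix.mul_apply, Fin.sum_univ_two, add_comm]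
    · rw [hIn]
      refine ⟨x, x.2, ?_⟩
      rw [← hX, hT]
      have e1 := fun i => congrFun hXv i
      have e2 := fun i => congrFun hXw i
      simp only [Matrix.mulVec, dotProduct, Fin.sum_univ_two, Pi.add_apply, Pi.smul_apply,
        smul_eq_mul] at e1 e2
      ext i l
      fin_cases i <;> fin_cases l
      · simp [Matrix.mul_apply, Fin.sum_univ_two]
        exact e1 0
      · simp [Matrix.mul_apply, Fin.sum_univ_two]
        rw [e2 0, mul_comm]
      · simp [Matrix.mul_apply, Fin.sum_univ_two]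
        exact e1 1
      · simp [Matrix.mul_apply, Fin.sum_univ_two]
        rw [e2 1, mul_comm]
  have hL : ∀ s : ZMod l, In !![1, 0; s, 1] := by
    refine hpow (fun s => !![1, 0; s, 1]) ?_ ?_ d hd0 ?_
    · ext i l
      fin_cases i <;> fin_cases l <;> rfl
    · intro a b
      ext i l
      fin_cases i <;> fin_cases l <;> simp [Matrix.mul_apply, Fin.sum_univ_two]
    · rw [hIn]
      refine ⟨g * x * g⁻¹, hnorm g hg x x.2, ?_⟩
      rw [Units.val_mul, Units.val_mul, ← hX, ← hW, ← hW', ← hX', hT]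
      have e1 := fun i => congrFun hX'v i
      have e2 := fun i => congrFun hX'w i
      simp only [Matrix.mulVec, dotProduct, Fin.sum_univ_two, Pi.add_apply, Pi.smul_apply,
        smul_eq_mul] at e1 e2
      ext i l
      fin_cases i <;> fin_cases l
      · simp [Matrix.mul_apply, Fin.sum_univ_two]
        rw [e1 0, mul_comm d]
      · simp [Matrix.mul_apply, Fin.sum_univ_two]
        exact e2 0
      · simp [Matrix.mul_apply, Fin.sum_univ_two]
        rw [e1 1, mul_comm d]
      · simp [Matrix.mul_apply, Fin.sum_univ_two]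
        exact e2 1
  have hTu : IsUnit T.det := isUnit_iff_ne_zero.2 hTd
  have h1 := slg_gauss In hmul hU hL (T⁻¹ * Y * T) (by
    rw [Matrix.det_mul, Matrix.det_mul, hY, mul_one, ← Matrix.det_mul,
      Matrix.nonsing_inv_mul _ hTu, Matrix.det_one])
  rw [hIn] at h1
  obtain ⟨y, hy, h2⟩ := h1
  refine ⟨y, hy, ?_⟩
  rw [← Matrix.mul_assoc, ← Matrix.mul_assoc, Matrix.mul_nonsing_inv _ hTu, Matrix.one_mul] at h2
  have h3 := congrArg (fun Z => Z * T⁻¹) h2
  simp only [Matrix.mul_assoc, Matrix.mul_nonsing_inv _ hTu, Matrix.mul_one] at h3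
  exact h3

end REC
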