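import Pool.Agent.Helper85.REC.Stmts13

/-!
# SPR: primes which split in a number field
-/

set_option autoImplicit false

open scoped Classical
open NumberField Polynomial

namespace REC

theorem st_SPR (hSPQ : ST_SPQ) : ST_SPR := by
  intro F _ _ lam c
  haveI hAlg : Algebra.IsAlgebraic ℚ (AlgebraicClosure F) :=
    Algebra.IsAlgebraic.trans ℚ F (AlgebraicClosure F)
  haveI hfin : Finite (F →ₐ[ℚ] AlgebraicClosure F) := inferInstance
  have hfr : ∀ τ : F →ₐ[ℚ] AlgebraicClosure F, FiniteDimensional ℚ τ.fieldRange := fun τ =>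
    Module.Finite.of_surjective τ.rangeRestrict.toLinearMap τ.rangeRestrict_surjective
  haveI h1 : FiniteDimensional ℚ
      (⨆ τ : F →ₐ[ℚ] AlgebraicClosure F, τ.fieldRange : IntermediateField ℚ (AlgebraicClosure F)) :=
    IntermediateField.finiteDimensional_iSup_of_finite
  haveI h2 : FiniteDimensional ℚ
      (IntermediateField.adjoin ℚ ({lam} : Set (AlgebraicClosure F))) :=
    IntermediateField.adjoin.finiteDimensional (Algebra.IsIntegral.isIntegral lam)
  let L : IntermediateField ℚ (AlgebraicClosure F) :=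
    (⨆ τ : F →ₐ[ℚ] AlgebraicClosure F, τ.fieldRange) ⊔
      IntermediateField.adjoin ℚ ({lam} : Set (AlgebraicClosure F))
  haveI hL : FiniteDimensional ℚ L := IntermediateField.finiteDimensional_sup _ _
  haveI : NumberField L := { to_charZero := inferInstance, to_finiteDimensional := hL }
  obtain ⟨l, hl, hcl, ⟨ψ⟩⟩ := hSPQ L c
  haveI := hl
  letI : Algebra L (AlgebraicClosure ℚ_[l]) :=
    ((algebraMap ℚ_[l] (AlgebraicClosure ℚ_[l])).comp ψ).toAlgebra
  haveI : Algebra.IsAlgebraic L (AlgebraicClosure F) := Algebra.IsAlgebraic.tower_top (K := ℚ) L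
  let φ : AlgebraicClosure F →ₐ[L] AlgebraicClosure ℚ_[l] := IsAlgClosed.lift
  have key : ∀ y ∈ L, ∃ a : ℚ_[l],
      φ y = algebraMap ℚ_[l] (AlgebraicClosure ℚ_[l]) a := by
    intro y hy
    refine ⟨ψ ⟨y, hy⟩, ?_⟩
    have := φ.commutes ⟨y, hy⟩
    exact this
  refine ⟨l, hl, (φ : AlgebraicClosure F →+* AlgebraicClosure ℚ_[l]), hcl, ?_, ?_⟩
  · exact key lam ((le_sup_right : _ ≤ L)
      (IntermediateField.subset_adjoin ℚ _ (Set.mem_singleton lam)))
  · intro τ x
    refine key (τ x) ((le_sup_left : _ ≤ L) ?_)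
    have h3 : τ x ∈ (τ.toRatAlgHom : F →ₐ[ℚ] AlgebraicClosure F).fieldRange := ⟨x, rfl⟩
    exact (le_iSup (fun τ : F →ₐ[ℚ] AlgebraicClosure F => τ.fieldRange) τ.toRatAlgHom) h3

end REC
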