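import Pool.Agent.Helper85.REC.Stmts14

/-!
# SUY: direct sums of representations with other index types
-/

set_option autoImplicit false

open scoped Classical
open NumberField Polynomial

namespace REC

open MU

section

variable {G : Type} [Group G] {l : ℕ} [Fact l.Prime]

theorem suy_res {n : ℕ} (r : G →* Matrix.GeneralLinearGroup (Fin n) ℤ_[l]) (g : G) :
    res r g = (r g : Matrix (Fin n) (Fin n) ℤ_[l]).map (PadicInt.toZMod (p := l)) := rfl

/-- complete reducibility after a change of the index type -/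
theorem suy_ss {ι : Type} [Fintype ι] {K : Type} [Field K] (s : G → Matrix ι ι K) (hs : SSx s)
    {m : ℕ} (e : ι ≃ Fin m) (r : G →* Matrix (Fin m) (Fin m) K)
    (hr : ∀ g, r g = (s g).submatrix e.symm e.symm) : IsSS r := by
  intro d B A hBA
  obtain ⟨⟨C₀, hC₀⟩, hA⟩ := hBA
  obtain ⟨W, hW⟩ : ∃ W : Submodule K (ι → K), ∀ x, x ∈ W ↔ ∃ y, B.mulVec y = fun i => x (e.symm i) :=
    ⟨(LinearMap.range B.mulVecLin).comap (LinearMap.funLeft K K e.symm), fun x => Iff.rfl⟩
  have hact : ∀ (M : Matrix ι ι K) (x : ι → K), (fun i => M.mulVec x (e.symm i)) =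
      (M.submatrix e.symm e.symm).mulVec fun i => x (e.symm i) := by
    intro M x
    ext i
    show ∑ j, M (e.symm i) j * x j = ∑ j, M (e.symm i) (e.symm j) * x (e.symm j)
    exact (Equiv.sum_comp e.symm fun j => M (e.symm i) j * x j).symm
  obtain ⟨E₀, hE1, hE2, hE3⟩ := hs W (by
    intro g x hx
    rw [hW] at hx ⊢
    obtain ⟨y, hy⟩ := hx
    refine ⟨(A g).mulVec y, ?_⟩
    rw [hact, ← hy, ← hr, Matrix.mulVec_mulVec, Matrix.mulVec_mulVec, hA])
  obtain ⟨E, hE⟩ : ∃ E, E = E₀.submatrix e.symm e.symm := ⟨_, rfl⟩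
  have hback : ∀ x : Fin m → K, (fun i => (fun a => x (e a)) (e.symm i)) = x := by
    intro x
    ext i
    show x (e (e.symm i)) = x i
    rw [e.apply_symm_apply]
  have hEr : ∀ g, E * r g = r g * E := by
    intro g
    rw [hE, hr, Matrix.submatrix_mul_equiv, Matrix.submatrix_mul_equiv, hE1]
  have hEx : ∀ x, ∃ y, B.mulVec y = E.mulVec x := by
    intro x
    obtain ⟨y, hy⟩ := (hW _).1 (hE2 fun a => x (e a))
    refine ⟨y, ?_⟩
    rw [hy, hact, hback, hE]
  have hEB : ∀ y, E.mulVec (B.mulVec y) = B.mulVec y := by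
    intro y
    have h1 : (fun a => B.mulVec y (e a)) ∈ W := by
      rw [hW]
      exact ⟨y, (hback _).symm⟩
    have h2 := hE3 _ h1
    have h3 := hact E₀ (fun a => B.mulVec y (e a))
    rw [h2, hback, ← hE] at h3
    exact h3.symm
  have hEB' : E * B = B := by
    apply Matrix.mulVec_injective
    ext1 y
    rw [← Matrix.mulVec_mulVec]
    exact hEB y
  have hBE : B * (C₀ * E) = E := by
    apply Matrix.mulVec_injective
    ext1 x
    obtain ⟨y, hy⟩ := hEx x
    rw [← Matrix.mulVec_mulVec, ← Matrix.mulVec_mulVec, ← hy, Matrix.mulVec_mulVec _ C₀ B, hC₀,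
      Matrix.one_mulVec]
  refine ⟨C₀ * E, ?_, fun g => ?_⟩
  · rw [Matrix.mul_assoc, hEB', hC₀]
  · calc C₀ * E * r g = C₀ * (r g * E) := by rw [Matrix.mul_assoc, hEr]
      _ = C₀ * (r g * (B * (C₀ * E))) := by rw [hBE]
      _ = C₀ * ((r g * B) * (C₀ * E)) := by rw [Matrix.mul_assoc (r g)]
      _ = C₀ * (B * A g * (C₀ * E)) := by rw [hA]
      _ = (C₀ * B) * (A g * (C₀ * E)) := by rw [Matrix.mul_assoc B, Matrix.mul_assoc C₀ B]
      _ = A g * (C₀ * E) := by rw [hC₀, Matrix.one_mul]

end

theorem st_SUY (hSUG : ST_SUG) : ST_SUY := by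
  intro G _ n l k hl ι _ r s P Q hPQ hPQ0 hQP hPr hss hlf
  haveI := hl
  obtain ⟨e, -⟩ : ∃ e : ∀ a, ι a ≃ Fin (Fintype.card (ι a)), e = fun a => Fintype.equivFin (ι a) :=
    ⟨_, rfl⟩
  have hs1 : ∀ a, s a 1 = 1 := by
    intro a
    have h := congrArg (fun X => X * Q a) (hPr a 1)
    simp only [map_one, Units.val_one, Matrix.mul_one, Matrix.mul_assoc, hPQ] at h
    exact h.symm
  have hsm : ∀ a g g', s a (g * g') = s a g * s a g' := by
    intro a g g'
    have h : s a (g * g') * P a * Q a = s a g * s a g' * P a * Q a := by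
      rw [← hPr, map_mul, Units.val_mul, ← Matrix.mul_assoc, hPr, Matrix.mul_assoc (s a g), hPr,
        ← Matrix.mul_assoc]
    rw [Matrix.mul_assoc, Matrix.mul_assoc (s a g * s a g'), hPQ, Matrix.mul_one,
      Matrix.mul_one] at h
    exact h
  obtain ⟨s', hs'⟩ : ∃ s' : ∀ a, G →* Matrix.GeneralLinearGroup (Fin (Fintype.card (ι a))) ℤ_[l],
      ∀ a g, (s' a g : Matrix (Fin (Fintype.card (ι a))) (Fin (Fintype.card (ι a))) ℤ_[l]) =
        (s a g).submatrix (e a).symm (e a).symm := by
    refine ⟨fun a => MonoidHom.toHomUnits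
      { toFun := fun g => (s a g).submatrix (e a).symm (e a).symm
        map_one' := ?_
        map_mul' := ?_ }, fun a g => rfl⟩
    · rw [hs1]
      exact Matrix.submatrix_one_equiv _
    · intro g g'
      rw [hsm, Matrix.submatrix_mul_equiv]
  refine hSUG G n l k (fun a => Fintype.card (ι a)) r s' (fun a => (P a).submatrix (e a).symm id)
    (fun a => (Q a).submatrix id (e a).symm) ?_ ?_ ?_ ?_ ?_ ?_
  · intro a
    rw [← Matrix.submatrix_mul _ _ _ _ _ Function.bijective_id, hPQ]
    exact Matrix.submatrix_one_equiv _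
  · intro a b hab
    rw [← Matrix.submatrix_mul _ _ _ _ _ Function.bijective_id, hPQ0 a b hab]
    rfl
  · rw [← hQP]
    refine Finset.sum_congr rfl fun a _ => ?_
    rw [Matrix.submatrix_mul_equiv, Matrix.submatrix_id_id]
  · intro a g
    have h := congrArg (fun X => X.submatrix (e a).symm id) (hPr a g)
    rw [Matrix.submatrix_mul _ _ _ _ _ Function.bijective_id, Matrix.submatrix_id_id] at h
    rw [h, hs', Matrix.submatrix_mul_equiv]
  · intro a
    refine suy_ss _ (hss a) (e a) _ fun g => ?_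
    rw [suy_res, hs']
    rfl
  · intro a b u hu
    obtain ⟨x, hx1, hx2⟩ := hlf a b (u.submatrix (e b) (e a)) (fun g => by
      have h := congrArg (fun X => X.submatrix (e b) (e a)) (hu g)
      simp only [suy_res, hs'] at h
      rw [← Matrix.submatrix_mul_equiv _ _ _ (e a), ← Matrix.submatrix_mul_equiv _ _ _ (e b)] at h
      have h1 : (((s a g).submatrix (e a).symm (e a).symm).map
          (PadicInt.toZMod (p := l))).submatrix (e a) (e a) =
          (s a g).map (PadicInt.toZMod (p := l)) := by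
        ext i j
        simp
      have h2 : (((s b g).submatrix (e b).symm (e b).symm).map
          (PadicInt.toZMod (p := l))).submatrix (e b) (e b) =
          (s b g).map (PadicInt.toZMod (p := l)) := by
        ext i j
        simp
      rw [h1, h2] at h
      exact h)
    refine ⟨x.submatrix (e b).symm (e a).symm, ?_, fun g => ?_⟩
    · ext i j
      have h := congrFun (congrFun hx1 ((e b).symm i)) ((e a).symm j)
      simp only [Matrix.map_apply, Matrix.submatrix_apply, Equiv.apply_symm_apply] at h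
      exact h
    · rw [hs', hs', Matrix.submatrix_mul_equiv, Matrix.submatrix_mul_equiv, hx2]

end REC
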