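import Pool.Agent.Helper85.REC.Stmts14
import Pool.Agent.Helper60.REC.TRP
import Pool.Agent.Helper85.MU.ISO

/-!
# TM2: polynomial identities modulo infinitely many `l`, for two motives
-/

set_option autoImplicit false

open scoped Classical
open NumberField

namespace Pool.Agent.Helper19.REC

open _root_.REC MU
open Pool.Agent.Helper60.REC8

theorem tm2_cont {X τ : Type} [TopologicalSpace X] {l : ℕ} [Fact l.Prime]
    (f : X → τ → ℤ_[l]) (hf : ∀ i, Continuous fun x => f x i) (Q : MvPolynomial τ ℤ) :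
    Continuous fun x => MvPolynomial.aeval (f x) Q := by
  have h1 : ∀ x, MvPolynomial.aeval (f x) Q =
      MvPolynomial.eval (f x) (MvPolynomial.map (algebraMap ℤ ℤ_[l]) Q) := by
    intro x
    rw [MvPolynomial.eval_map, MvPolynomial.aeval_def]
  simp_rw [h1]
  exact (MvPolynomial.continuous_eval _).comp (continuous_pi hf)

theorem tm2_map {R R' τ : Type} [CommRing R] [CommRing R'] (f : R →+* R') (x : τ → R)
    (Q : MvPolynomial τ ℤ) : MvPolynomial.aeval (fun i => f (x i)) Q =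
      f (MvPolynomial.aeval x Q) := by
  have h : (MvPolynomial.aeval (fun i => f (x i)) : MvPolynomial τ ℤ →ₐ[ℤ] R').toRingHom =
      f.comp (MvPolynomial.aeval x : MvPolynomial τ ℤ →ₐ[ℤ] R).toRingHom := by
    apply MvPolynomial.ringHom_ext
    · intro r
      simp
    · intro i
      simp
  exact RingHom.congr_fun h Q

theorem st_TM2 (hFRB : ST_FRB) : ST_TM2 := by
  intro F _ _ S S' hS hS' n n' w w' h h' M M' U hU Q hinf l _ σ₀ hσ₀
  obtain ⟨f, hf⟩ : ∃ f : Gal F → ℤ_[l], f = fun σ => MvPolynomial.aeval (Sum.elim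
    (fun i : ℕ => ((M.ρ l σ : Matrix.GeneralLinearGroup (Fin n) ℤ_[l]) :
        Matrix (Fin n) (Fin n) ℤ_[l]).charpoly.coeff i)
    (fun i : ℕ => ((M'.ρ l σ : Matrix.GeneralLinearGroup (Fin n') ℤ_[l]) :
        Matrix (Fin n') (Fin n') ℤ_[l]).charpoly.coeff i)) Q := ⟨_, rfl⟩
  have hgoal : MvPolynomial.aeval
      (Sum.elim (fun i => (rat (M.ρ l) σ₀).charpoly.coeff i)
        (fun i => (rat (M'.ρ l) σ₀).charpoly.coeff i)) Q = algebraMap ℤ_[l] ℚ_[l] (f σ₀) := by
    rw [hf, ← tm2_map]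
    congr 2
    funext i
    rcases i with i | i
    · show (rat (M.ρ l) σ₀).charpoly.coeff i = _
      rw [rat_apply, Matrix.charpoly_map, Polynomial.coeff_map]
      rfl
    · show (rat (M'.ρ l) σ₀).charpoly.coeff i = _
      rw [rat_apply, Matrix.charpoly_map, Polynomial.coeff_map]
      rfl
  rw [hgoal]
  by_contra hne'
  have hne : f σ₀ ≠ 0 := fun h0 => hne' (by rw [h0, map_zero])
  have hcont : Continuous f := by
    rw [hf]
    refine tm2_cont _ (fun i => ?_) Q
    rcases i with i | i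
    · refine continuous_coeff _ ?_ i
      exact Units.continuous_val.comp (M.continuous l)
    · refine continuous_coeff _ ?_ i
      exact Units.continuous_val.comp (M'.continuous l)
  obtain ⟨V, hV⟩ : ∃ V : Set (Gal F), V = (fun σ => σ₀ * σ) ⁻¹' (U ∩ {σ | f σ ≠ 0}) := ⟨_, rfl⟩
  have hVo : IsOpen V := by
    rw [hV]
    refine IsOpen.preimage (continuous_const.mul continuous_id) ?_
    exact hU.inter (isOpen_ne_fun hcont continuous_const)
  have hV1 : (1 : Gal F) ∈ V := by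
    rw [hV, Set.mem_preimage, mul_one]
    exact ⟨hσ₀, hne⟩
  obtain ⟨Y, hYn, hYo, hYV⟩ := exists_openNormal F V hVo hV1
  obtain ⟨p, 𝔓, k, φ, hp, hpS, hover, hk, hcong, hφ⟩ :=
    hFRB F Y hYn hYo (insert l (S ∪ S')) σ₀⁻¹
  rw [inv_inv] at hφ
  simp only [Finset.mem_insert, Finset.mem_union, not_or] at hpS
  have h1 : σ₀⁻¹ * φ⁻¹ ∈ Y := by
    have h2 : φ⁻¹ * σ₀⁻¹ ∈ Y := by
      have := Y.inv_mem hφ
      rwa [mul_inv_rev] at this
    exact (hYn.mem_comm_iff).mp h2
  have h2 := hYV h1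
  rw [hV, Set.mem_preimage] at h2
  have h3 : σ₀ * (σ₀⁻¹ * φ⁻¹) = φ⁻¹ := by group
  rw [h3] at h2
  obtain ⟨P, _, hP⟩ := M.pure p hp hpS.2.1 𝔓 hover k φ hk hcong
  obtain ⟨P', _, hP'⟩ := M'.pure p hp hpS.2.2 𝔓 hover k φ hk hcong
  obtain ⟨z, hz⟩ : ∃ z : ℤ, z = MvPolynomial.aeval
      (Sum.elim (fun i => P.coeff i) (fun i => P'.coeff i)) Q := ⟨_, rfl⟩
  have key : ∀ (R : Type) [CommRing R], MvPolynomial.aeval
      (Sum.elim (fun i => (P.map (Int.castRingHom R)).coeff i)
        (fun i => (P'.map (Int.castRingHom R)).coeff i)) Q = (z : R) := by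
    intro R _
    have h4 : (Sum.elim (fun i => (P.map (Int.castRingHom R)).coeff i)
        (fun i => (P'.map (Int.castRingHom R)).coeff i)) =
        fun i => Int.castRingHom R (Sum.elim (fun i => P.coeff i) (fun i => P'.coeff i) i) := by
      funext i
      rcases i with i | i
      · exact Polynomial.coeff_map _ _
      · exact Polynomial.coeff_map _ _
    rw [h4, tm2_map, ← hz]
    rfl
  have hz0 : z ≠ 0 := by
    intro h0
    apply h2.2
    rw [hf]
    show MvPolynomial.aeval _ Q = 0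
    rw [hP l (Ne.symm hpS.1), hP' l (Ne.symm hpS.1), key, h0, Int.cast_zero]
  obtain ⟨l', hl', hlt, h5⟩ := hinf (max p z.natAbs)
  have hl'p : l' ≠ p := ((le_max_left _ _).trans_lt hlt).ne'
  have h6 := h5 φ⁻¹ h2.1
  have h7 : (res (M.ρ l') φ⁻¹).charpoly = P.map (Int.castRingHom (ZMod l')) := by
    rw [MU.res_apply, Matrix.charpoly_map, hP l' hl'p, Polynomial.map_map]
    congr 1
    exact RingHom.ext_int _ _
  have h7' : (res (M'.ρ l') φ⁻¹).charpoly = P'.map (Int.castRingHom (ZMod l')) := by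
    rw [MU.res_apply, Matrix.charpoly_map, hP' l' hl'p, Polynomial.map_map]
    congr 1
    exact RingHom.ext_int _ _
  rw [h7, h7', key] at h6
  have h9 : (l' : ℤ) ∣ z := (ZMod.intCast_zmod_eq_zero_iff_dvd z l').mp h6
  have h10 : l' ≤ z.natAbs := Nat.le_of_dvd (Int.natAbs_pos.mpr hz0) (Int.natCast_dvd.mp h9)
  have h11 : z.natAbs < l' := (le_max_right _ _).trans_lt hlt
  omega

end Pool.Agent.Helper19.REC
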