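import Pool.Agent.Helper19.REC.POV

/-! # UNV: norms at unramified places -/

set_option autoImplicit false

open scoped Classical
open scoped Pointwise
open NumberField

namespace REC

open Pool.Agent.Helper13.ZL (Pl q HasMean)
open MU (Gal Zb Over CongPow)
open POVaux

namespace UNVaux

variable {F L : Type} [Field F] [NumberField F] [Field L] [NumberField L] [Algebra F L]

theorem ram_one {v : Pl F} {P : Pl L} (hu : UnrL L v) (h : OvL v P) :
    v.asIdeal.ramificationIdx' P.asIdeal = 1 := by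
  obtain ⟨π, hπ⟩ := v.valuation_exists_uniformizer F
  have h1 := hu P h π
  rw [val_down h, hπ, ← WithZero.exp_nsmul, WithZero.exp_inj] at h1
  simp only [nsmul_eq_mul] at h1
  omega

theorem deg_eq [IsGalois F L] {v : Pl F} {P : Pl L} (hu : UnrL L v) (h : OvL v P) :
    v.asIdeal.inertiaDeg' P.asIdeal = nv L v := by
  have h1 := card_over v h
  rw [ram_one hu h, one_mul] at h1
  haveI := finite_over (L := L) v
  haveI := nonempty_over (L := L) v
  have h2 : 0 < Nat.card {P : Pl L // OvL v P} := Nat.card_pos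
  unfold nv
  rw [← h1, Nat.mul_div_cancel_left _ h2]

/-- the permutation of the places over `v` -/
noncomputable def actE (v : Pl F) (τ : L ≃ₐ[F] L) :
    {P : Pl L // OvL v P} ≃ {P : Pl L // OvL v P} where
  toFun P := ⟨act τ P, ovL_act τ P.2⟩
  invFun P := ⟨act τ⁻¹ P, ovL_act τ⁻¹ P.2⟩
  left_inv P := by
    apply Subtype.ext
    apply IsDedekindDomain.HeightOneSpectrum.ext
    exact inv_smul_smul τ P.1.asIdeal
  right_inv P := by
    apply Subtype.ext
    apply IsDedekindDomain.HeightOneSpectrum.ext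
    exact smul_inv_smul τ P.1.asIdeal

theorem prod_act [IsGalois F L] {v : Pl F} {P : Pl L} (h : OvL v P)
    (f : Pl L → WithZero (Multiplicative ℤ)) :
    ∏ τ : L ≃ₐ[F] L, f (act τ P) = (∏ᶠ P : {P : Pl L // OvL v P}, f P) ^ nv L v := by
  haveI := finite_over (L := L) v
  haveI := nonempty_over (L := L) v
  haveI := Fintype.ofFinite {P : Pl L // OvL v P}
  rw [finprod_eq_prod_of_fintype]
  have hcard : Nat.card {P : Pl L // OvL v P} = Fintype.card {P : Pl L // OvL v P} :=
    Nat.card_eq_fintype_card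
  have hpos : Fintype.card {P : Pl L // OvL v P} ≠ 0 := Fintype.card_ne_zero
  have hnv := nv_mul (L := L) v
  rw [hcard] at hnv
  -- independence of `P`
  have hind : ∀ Q : {P : Pl L // OvL v P}, ∏ τ : L ≃ₐ[F] L, f (act τ Q) =
      ∏ τ : L ≃ₐ[F] L, f (act τ P) := by
    rintro ⟨Q, hQ⟩
    obtain ⟨σ, hσ⟩ := trans_act h hQ
    show ∏ τ : L ≃ₐ[F] L, f (act τ Q) = _
    rw [← Equiv.prod_comp (Equiv.mulRight σ) (fun τ : L ≃ₐ[F] L => f (act τ P))]
    refine Finset.prod_congr rfl fun τ _ => ?_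
    congr 1
    rw [hσ]
    apply IsDedekindDomain.HeightOneSpectrum.ext
    exact (mul_smul τ σ P.asIdeal).symm
  have h1 : (∏ τ : L ≃ₐ[F] L, f (act τ P)) ^ Fintype.card {P : Pl L // OvL v P} =
      ((∏ P : {P : Pl L // OvL v P}, f P) ^ nv L v) ^ Fintype.card {P : Pl L // OvL v P} := by
    rw [← pow_mul, hnv]
    calc (∏ τ : L ≃ₐ[F] L, f (act τ P)) ^ Fintype.card {P : Pl L // OvL v P}
        = ∏ Q : {P : Pl L // OvL v P}, ∏ τ : L ≃ₐ[F] L, f (act τ Q) := by
          rw [Finset.prod_congr rfl fun Q _ => hind Q, Finset.prod_const, Finset.card_univ]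
      _ = ∏ τ : L ≃ₐ[F] L, ∏ Q : {P : Pl L // OvL v P}, f (act τ Q) := Finset.prod_comm
      _ = ∏ τ : L ≃ₐ[F] L, ∏ Q : {P : Pl L // OvL v P}, f Q := by
          refine Finset.prod_congr rfl fun τ _ => ?_
          exact Equiv.prod_comp (actE v τ) (fun Q : {P : Pl L // OvL v P} => f Q)
      _ = _ := by
          rw [Finset.prod_const, Finset.card_univ, ← Nat.card_eq_fintype_card,
            IsGalois.card_aut_eq_finrank]
  exact (pow_left_inj₀ zero_le zero_le hpos).1 h1

end UNVaux

open UNVaux in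
theorem st_UNV : ST_UNV := by
  intro F L _ _ _ _ _ _ v hu
  refine ⟨fun P h => ?_, fun x => ?_⟩
  · haveI := ovL_lies h
    rw [← deg_eq hu h]
    exact Ideal.absNorm_eq_pow_inertiaDeg'_of_liesOver P.asIdeal v.asIdeal v.isPrime v.ne_bot
  · obtain ⟨P, hP⟩ := nonempty_over (L := L) v
    have h1 := norm_val (v := v) (P := P) x
    rw [hu P hP, prod_act hP (fun Q => Q.valuation L x)] at h1
    exact h1

end REC
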